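import Pool.Agent.N993.Cyc

/-!
Odd distributions on `ZMod N` and systems on the points of the product of the prime components.
-/

set_option linter.unusedSectionVars false

namespace Pool.Agent.N993

open Finset Pool.Agent.H916R2 Pool.Agent.N992

set_option allowUnsafeReducibility true in
attribute [local semireducible] cyc

section

variable {ι : Type} [Fintype ι] [DecidableEq ι] {n : ι → ℕ} [∀ i, NeZero (n i)]

/-- the value of an element of the group with index `i` -/
def vl {i : ι} (u : (cyc n).G i) : ZMod (n i) := Units.val (α := ZMod (n i)) u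

lemma emb_none {x : (cyc n).Pt} {i : ι} (h : x i = none) : emb x i = 0 := by
  unfold emb; rw [h]

lemma emb_some {x : (cyc n).Pt} {i : ι} {u : (cyc n).G i} (h : x i = some u) :
    emb x i = vl u := by
  unfold emb; rw [h]; rfl

lemma vl_mul {i : ι} (u v : (cyc n).G i) : vl (u * v) = vl u * vl v := rfl

lemma vl_isUnit {i : ι} (u : (cyc n).G i) : IsUnit (vl u) :=
  Units.isUnit (M := ZMod (n i)) u

lemma vl_injective {i : ι} {u v : (cyc n).G i} (h : vl u = vl v) : u = v :=
  Units.ext (α := ZMod (n i)) h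

lemma emb_act (b : (cyc n).GG) (x : (cyc n).Pt) (i : ι) :
    emb ((cyc n).act b x) i = vl (b i) * emb x i := by
  cases h : x i with
  | none => rw [emb_none h, emb_none (Dat.act_apply_none h), mul_zero]
  | some u => rw [emb_some h, emb_some (Dat.act_apply_some h), vl_mul]

lemma emb_update_some (x : (cyc n).Pt) (i : ι) (u : (cyc n).G i) :
    emb (Function.update x i (some u)) = Function.update (emb x) i (vl u) := by
  funext j
  by_cases h : j = i
  · subst h
    rw [Function.update_self, emb_some (Function.update_self ..)]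
  · rw [Function.update_of_ne h]
    unfold emb
    rw [Function.update_of_ne h]

lemma emb_c (x : (cyc n).Pt) : emb ((cyc n).act (cyc n).c x) = - emb x := by
  funext i
  rw [emb_act]
  have : vl ((cyc n).c i) = -1 := rfl
  rw [this, Pi.neg_apply, neg_one_mul]

lemma vl_alpha {i j : ι} (h : (n i).Coprime (n j)) : vl ((cyc n).α i j) = (n i : ZMod (n j)) :=
  unOf_val h

lemma vl_beta {i j : ι} (hi : n i = 4) (h : (2 : ℕ).Coprime (n j)) :
    vl ((cyc n).β i j) = (2 : ZMod (n j)) := by
  have : (cyc n).β i j = unOf 2 (n j) := by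
    change (if n i = 4 then unOf 2 (n j) else 1) = _
    rw [if_pos hi]
  rw [this]
  exact_mod_cast unOf_val h

lemma beta_one {i : ι} (hi : n i ≠ 4) : (cyc n).β i = 1 := by
  funext j
  change (if n i = 4 then unOf 2 (n j) else 1) = _
  rw [if_neg hi]
  rfl

lemma beta_eq {i k : ι} (hi : n i = 4) (hk : n k = 4) : (cyc n).β i = (cyc n).β k := by
  funext j
  change (if n i = 4 then unOf 2 (n j) else 1) = (if n k = 4 then unOf 2 (n j) else 1)
  rw [if_pos hi, if_pos hk]

lemma cop_two {i j : ι} (hi : n i = 4) (h : (n i).Coprime (n j)) : (2 : ℕ).Coprime (n j) :=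
  Nat.Coprime.coprime_dvd_left (by rw [hi]; norm_num) h

/-- the sum over a ring of prime order -/
lemma sum_prime {A : Type} [AddCommMonoid A] {i : ι} (hp : (n i).Prime) (g : ZMod (n i) → A) :
    ∑ j : ZMod (n i), g j = g 0 + ∑ u : (cyc n).G i, g (vl u) := by
  classical
  have : Fact (n i).Prime := ⟨hp⟩
  rw [← Finset.add_sum_erase univ g (mem_univ 0)]
  congr 1
  symm
  refine sum_bij (fun u _ => vl u) ?_ ?_ ?_ ?_
  · intro u _
    exact mem_erase.mpr ⟨(vl_isUnit u).ne_zero, mem_univ _⟩
  · intro u _ v _ h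
    exact vl_injective h
  · intro j hj
    have h0 : j ≠ 0 := (mem_erase.mp hj).1
    exact ⟨Units.mk0 j h0, mem_univ _, rfl⟩
  · intro u _; rfl

lemma units_four : ∀ u : (ZMod 4)ˣ, u = 1 ∨ u = -1 := by decide

lemma one_ne_neg_one_four : (1 : (ZMod 4)ˣ) ≠ -1 := by decide

/-- the sum over the units modulo 4 -/
lemma sum_four {A : Type} [AddCommMonoid A] {i : ι} (hi : n i = 4) (g : ZMod (n i) → A) :
    ∑ u : (cyc n).G i, g (vl u) = g 1 + g 3 := by
  have key : ∀ (m : ℕ) (hm : m = 4) [NeZero m] (g : ZMod m → A),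
      ∑ u : (ZMod m)ˣ, g (u : ZMod m) = g 1 + g 3 := by
    intro m hm _ g
    subst hm
    have h1 : (univ : Finset (ZMod 4)ˣ) = {1, -1} := by
      ext u
      simp only [mem_univ, mem_insert, mem_singleton, true_iff]
      exact units_four u
    rw [h1, sum_pair one_ne_neg_one_four]
    congr 1
  exact key (n i) hi g

end

section C1

variable {ι : Type} [Fintype ι] [DecidableEq ι] {n : ι → ℕ} [∀ i, NeZero (n i)] {N : ℕ} [NeZero N]

/-- an odd distribution satisfies the product relations: primes -/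
lemma prod_dist (hco : Pairwise (fun i j => (n i).Coprime (n j)))
    (hN : ∏ i, n i = N) (E : (∀ i, ZMod (n i)) ≃+* ZMod N) {Q : Type} [AddCommGroup Q]
    {c : ZMod N → Q} (hc : OddDist c) {i : ι} (hp : (n i).Prime) (x : ∀ i, ZMod (n i)) :
    ∑ j : ZMod (n i), c (E (Function.update x i j)) = c (E ((n i) • x)) := by
  set M := ∏ l ∈ univ.erase i, n l with hM
  have hNM : n i * M = N := by rw [hM, Finset.mul_prod_erase univ n (mem_univ i), hN]
  have hcop : (n i).Coprime M := Nat.Coprime.prod_right fun l hl => hco (Finset.ne_of_mem_erase hl).symm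
  have h1 := hc.dist (n i) M hp hNM (E x)
  have h2 : ((n i : ℕ) : ZMod N) * E x = E ((n i) • x) := by
    rw [map_nsmul, nsmul_eq_mul]
  rw [h2] at h1
  rw [← h1]
  have hfact : Fact (n i).Prime := ⟨hp⟩
  have hMu : IsUnit ((M : ℕ) : ZMod (n i)) := by
    rw [ZMod.isUnit_iff_coprime]; exact hcop.symm
  have hterm : ∀ k : ℕ, E x + (k : ZMod N) * (M : ZMod N) =
      E (Function.update x i (x i + (k : ZMod (n i)) * (M : ZMod (n i)))) := by
    intro k
    have e1 : (k : ZMod N) * (M : ZMod N) = ((k * M : ℕ) : ZMod N) := by push_cast; rfl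
    rw [e1, E_natCast E, ← map_add]
    congr 1
    funext l
    by_cases hl : l = i
    · subst hl
      rw [Function.update_self, Pi.add_apply]; push_cast; rfl
    · rw [Function.update_of_ne hl, Pi.add_apply]
      have : ((k * M : ℕ) : ZMod (n l)) = 0 := by
        rw [ZMod.natCast_eq_zero_iff]
        exact (Finset.dvd_prod_of_mem n (Finset.mem_erase.mpr ⟨hl, mem_univ l⟩)).mul_left k
      rw [this, add_zero]
  simp only [hterm]
  symm
  refine sum_bij (fun k _ => x i + (k : ZMod (n i)) * (M : ZMod (n i))) (fun _ _ => mem_univ _)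
    ?_ ?_ (fun _ _ => rfl)
  · intro k hk k' hk' h
    have h3 : (k : ZMod (n i)) = (k' : ZMod (n i)) := hMu.mul_right_cancel (add_left_cancel h)
    rw [ZMod.natCast_eq_natCast_iff'] at h3
    rwa [Nat.mod_eq_of_lt (mem_range.mp hk), Nat.mod_eq_of_lt (mem_range.mp hk')] at h3
  · intro j _
    obtain ⟨u, hu⟩ := hMu
    refine ⟨((j - x i) * (u⁻¹ : (ZMod (n i))ˣ)).val, mem_range.mpr (ZMod.val_lt _), ?_⟩
    rw [ZMod.natCast_zmod_val, ← hu, mul_assoc, Units.inv_mul, mul_one, add_sub_cancel]

/-- an odd distribution satisfies the product relations: 4 -/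
lemma prod_four (hco : Pairwise (fun i j => (n i).Coprime (n j)))
    (hN : ∏ i, n i = N) (E : (∀ i, ZMod (n i)) ≃+* ZMod N) {Q : Type} [AddCommGroup Q]
    {c : ZMod N → Q} (hc : OddDist c) {i : ι} (hi : n i = 4) (x : ∀ i, ZMod (n i)) :
    c (E x) + c (E (Function.update x i (x i + 2))) = c (E (2 • x)) := by
  set M := ∏ l ∈ univ.erase i, n l with hM
  have hNM : n i * M = N := by rw [hM, Finset.mul_prod_erase univ n (mem_univ i), hN]
  have hcop : (n i).Coprime M := Nat.Coprime.prod_right fun l hl => hco (Finset.ne_of_mem_erase hl).symm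
  have h2M : 2 * (2 * M) = N := by rw [← hNM, hi]; ring
  have h1 := hc.dist 2 (2 * M) Nat.prime_two h2M (E x)
  rw [sum_range_succ, sum_range_one] at h1
  have h2 : ((2 : ℕ) : ZMod N) * E x = E (2 • x) := by
    rw [map_nsmul, nsmul_eq_mul]
  rw [h2] at h1
  rw [← h1]
  have hodd : M % 2 = 1 := by
    rw [hi] at hcop
    have : Nat.Coprime 2 M := Nat.Coprime.coprime_dvd_left (by norm_num) hcop
    rw [Nat.coprime_two_left] at this
    exact Nat.odd_iff.mp this
  congr 1
  · congr 1; push_cast; ring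
  · congr 1
    have e1 : ((1 : ℕ) : ZMod N) * ((2 * M : ℕ) : ZMod N) = ((2 * M : ℕ) : ZMod N) := by
      push_cast; ring
    rw [e1, E_natCast E, ← map_add]
    congr 1
    funext l
    by_cases hl : l = i
    · subst hl
      rw [Function.update_self, Pi.add_apply]
      congr 1
      have h4 : ((2 * M : ℕ) : ZMod (n l)) = ((2 : ℕ) : ZMod (n l)) := by
        rw [ZMod.natCast_eq_natCast_iff', hi]
        omega
      rw [h4]; push_cast; rfl
    · rw [Function.update_of_ne hl, Pi.add_apply]
      have : ((2 * M : ℕ) : ZMod (n l)) = 0 := by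
        rw [ZMod.natCast_eq_zero_iff]
        exact (Finset.dvd_prod_of_mem n (Finset.mem_erase.mpr ⟨hl, mem_univ l⟩)).mul_left 2
      rw [this, add_zero]

lemma emb_alpha (hco : Pairwise (fun i j => (n i).Coprime (n j))) {x : (cyc n).Pt} {i : ι}
    (hx : x i = none) : emb ((cyc n).act ((cyc n).α i) x) = (n i) • emb x := by
  funext j
  rw [emb_act, Pi.smul_apply, nsmul_eq_mul]
  by_cases h : j = i
  · subst h
    rw [emb_none hx, mul_zero, mul_zero]
  · rw [vl_alpha (hco (Ne.symm h))]

lemma emb_beta (hco : Pairwise (fun i j => (n i).Coprime (n j))) {x : (cyc n).Pt} {i : ι}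
    (hi : n i = 4) (hx : x i = none) : emb ((cyc n).act ((cyc n).β i) x) = 2 • emb x := by
  funext j
  rw [emb_act, Pi.smul_apply, nsmul_eq_mul]
  by_cases h : j = i
  · subst h
    rw [emb_none hx, mul_zero, mul_zero]
  · rw [vl_beta hi (cop_two hi (hco (Ne.symm h)))]
    push_cast; rfl

lemma not_four_of_prime {i : ι} (hp : (n i).Prime) : n i ≠ 4 := by
  intro h
  rw [h] at hp
  exact absurd hp (by norm_num)

theorem isD0_of_oddDist (hn : Adm' n) (hco : Pairwise (fun i j => (n i).Coprime (n j)))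
    (hN : ∏ i, n i = N) (E : (∀ i, ZMod (n i)) ≃+* ZMod N) {Q : Type} [AddCommGroup Q]
    {c : ZMod N → Q} (hc : OddDist c) :
    (cyc n).IsD0 univ (fun x => c (E (emb x))) ∧
      ∀ x, c (E (emb ((cyc n).act (cyc n).c x))) = - c (E (emb x)) := by
  refine ⟨?_, fun x => by rw [emb_c, map_neg, hc.neg]⟩
  intro i _ x _ hx
  simp only [emb_update_some]
  rcases hn i with ⟨hp, _⟩ | h4
  · have h1 := prod_dist hco hN E hc hp (emb x)
    rw [sum_prime hp] at h1
    have h0 : Function.update (emb x) i 0 = emb x := by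
      rw [← emb_none hx]; exact Function.update_eq_self i _
    rw [h0] at h1
    rw [emb_alpha hco hx, beta_one (not_four_of_prime hp), Dat.act_one, ← h1]
    abel
  · rw [sum_four h4 (fun v => c (E (Function.update (emb x) i v)))]
    have h1 := prod_four hco hN E hc h4 (Function.update (emb x) i 1)
    have h2 := prod_four hco hN E hc h4 (2 • emb x)
    rw [Function.update_self, Function.update_idem] at h1
    have e3 : (1 + 2 : ZMod (n i)) = 3 := by norm_num
    rw [e3] at h1
    have e4 : 2 • Function.update (emb x) i 1 =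
        Function.update (2 • emb x) i ((2 • emb x) i + 2) := by
      funext j
      by_cases h : j = i
      · subst h
        rw [Pi.smul_apply, Function.update_self, Function.update_self, Pi.smul_apply, emb_none hx]
        norm_num
      · rw [Pi.smul_apply, Function.update_of_ne h, Function.update_of_ne h, Pi.smul_apply]
    have e5 : 2 • (2 • emb x) = (n i) • emb x := by
      rw [h4, ← mul_smul]; norm_num
    rw [h1, e4, emb_alpha hco hx, emb_beta hco h4 hx, ← e5, ← h2]
    abel

end C1

section C2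

variable {ι : Type} [Fintype ι] [DecidableEq ι] {n : ι → ℕ} [∀ i, NeZero (n i)]

lemma pt_of_isUnit {a : ∀ i, ZMod (n i)} {i : ι} (h : IsUnit (a i)) :
    ∃ u : (cyc n).G i, pt a i = some u ∧ vl u = a i := by
  refine ⟨h.unit, ?_, h.unit_spec⟩
  unfold pt
  exact dif_pos h

lemma pt_of_not {a : ∀ i, ZMod (n i)} {i : ι} (h : ¬ IsUnit (a i)) : pt a i = none := by
  unfold pt
  exact dif_neg h

lemma pt_of_eq {a : ∀ i, ZMod (n i)} {i : ι} {u : (cyc n).G i} (h : a i = vl u) :
    pt a i = some u := by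
  obtain ⟨v, hv, hv'⟩ := pt_of_isUnit (h ▸ vl_isUnit u : IsUnit (a i))
  rw [hv]
  congr 1
  exact vl_injective (hv'.trans h)

lemma pt_update_vl (a : ∀ i, ZMod (n i)) (i : ι) (u : (cyc n).G i) :
    pt (Function.update a i (vl u)) = Function.update (pt a) i (some u) := by
  funext j
  by_cases h : j = i
  · subst h
    rw [Function.update_self]
    exact pt_of_eq (Function.update_self ..)
  · rw [Function.update_of_ne h]
    unfold pt
    rw [Function.update_of_ne h]

lemma pt_update_not (a : ∀ i, ZMod (n i)) (i : ι) {v : ZMod (n i)} (hv : ¬ IsUnit v) :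
    pt (Function.update a i v) = Function.update (pt a) i none := by
  funext j
  by_cases h : j = i
  · subst h
    rw [Function.update_self]
    exact pt_of_not (by rwa [Function.update_self])
  · rw [Function.update_of_ne h]
    unfold pt
    rw [Function.update_of_ne h]

lemma pt_smul {a : ∀ i, ZMod (n i)} {i : ι} {k : ℕ} {b : (cyc n).GG}
    (hb : ∀ j, j ≠ i → vl (b j) = (k : ZMod (n j))) (hk : ∀ v : ZMod (n i), ¬ IsUnit (k • v)) :
    pt (k • a) = (cyc n).act b (Function.update (pt a) i none) := by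
  funext j
  by_cases h : j = i
  · subst h
    rw [pt_of_not (show ¬ IsUnit ((k • a) j) from hk (a j)),
      Dat.act_apply_none (Function.update_self ..)]
  · by_cases hu : IsUnit (a j)
    · obtain ⟨u, hu1, hu2⟩ := pt_of_isUnit hu
      rw [Dat.act_apply_some (u := u) (by rw [Function.update_of_ne h, hu1])]
      refine pt_of_eq ?_
      rw [vl_mul, hb j h, hu2, Pi.smul_apply, nsmul_eq_mul]
    · rw [Dat.act_apply_none (by rw [Function.update_of_ne h, pt_of_not hu])]
      refine pt_of_not ?_
      rw [Pi.smul_apply, nsmul_eq_mul, ← hb j h]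
      intro h'
      exact hu ((vl_isUnit (b j)).mul_left_iff.mp h')

lemma pt_neg (a : ∀ i, ZMod (n i)) : pt (-a) = (cyc n).act (cyc n).c (pt a) := by
  funext j
  by_cases hu : IsUnit (a j)
  · obtain ⟨u, hu1, hu2⟩ := pt_of_isUnit hu
    rw [Dat.act_apply_some hu1]
    refine pt_of_eq ?_
    have : vl ((cyc n).c j) = -1 := rfl
    rw [vl_mul, this, hu2, Pi.neg_apply, neg_one_mul]
  · rw [Dat.act_apply_none (pt_of_not hu)]
    refine pt_of_not ?_
    rw [Pi.neg_apply]
    exact fun h => hu (by simpa using h.neg)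

/-- the flag -/
def Flag (a : ∀ i, ZMod (n i)) : Prop := ∃ i, n i = 4 ∧ a i = 2

lemma ext_of_not {Q : Type} [AddCommGroup Q] (f : (cyc n).Pt → Q) {a : ∀ i, ZMod (n i)}
    (h : ¬ Flag a) : ext f a = f (pt a) := by
  unfold ext
  exact dif_neg h

lemma ext_of_flag {Q : Type} [AddCommGroup Q] (f : (cyc n).Pt → Q) {a : ∀ i, ZMod (n i)} {i : ι}
    (h4 : n i = 4) (h : a i = 2) : ext f a = f ((cyc n).act ((cyc n).β i) (pt a)) - f (pt a) := by
  have h' : ∃ i, n i = 4 ∧ a i = 2 := ⟨i, h4, h⟩
  unfold ext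
  rw [dif_pos h', beta_eq h'.choose_spec.1 h4]

lemma not_isUnit_zero {i : ι} (hn : Adm' n) : ¬ IsUnit (0 : ZMod (n i)) := by
  rcases hn i with ⟨hp, _⟩ | h4
  · have : Fact (n i).Prime := ⟨hp⟩
    exact _root_.not_isUnit_zero
  · have : Nontrivial (ZMod (n i)) := by
      have : Fact (1 < n i) := ⟨by omega⟩
      infer_instance
    exact _root_.not_isUnit_zero

lemma not_isUnit_two {i : ι} (h4 : n i = 4) : ¬ IsUnit (2 : ZMod (n i)) := by
  have key : ∀ m : ℕ, m = 4 → ¬ IsUnit (2 : ZMod m) := by
    intro m hm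
    subst hm
    decide
  exact key _ h4

lemma not_isUnit_smul_prime {i : ι} (hn : Adm' n) (v : ZMod (n i)) : ¬ IsUnit ((n i) • v) := by
  rw [nsmul_eq_mul, ZMod.natCast_self, zero_mul]
  exact not_isUnit_zero hn

lemma not_isUnit_smul_two {i : ι} (h4 : n i = 4) (v : ZMod (n i)) : ¬ IsUnit ((2 : ℕ) • v) := by
  rw [nsmul_eq_mul]
  intro h
  have := isUnit_of_mul_isUnit_left h
  exact not_isUnit_two h4 (by exact_mod_cast this)

lemma pt_smul_alpha (hn : Adm' n) (hco : Pairwise (fun i j => (n i).Coprime (n j)))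
    (a : ∀ i, ZMod (n i)) (i : ι) :
    pt ((n i) • a) = (cyc n).act ((cyc n).α i) (Function.update (pt a) i none) :=
  pt_smul (fun _ h => vl_alpha (hco (Ne.symm h))) (not_isUnit_smul_prime hn)

lemma pt_smul_beta (hco : Pairwise (fun i j => (n i).Coprime (n j)))
    (a : ∀ i, ZMod (n i)) {i : ι} (h4 : n i = 4) :
    pt (2 • a) = (cyc n).act ((cyc n).β i) (Function.update (pt a) i none) :=
  pt_smul (fun _ h => by rw [vl_beta h4 (cop_two h4 (hco (Ne.symm h)))]; norm_num)
    (not_isUnit_smul_two h4)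

lemma eq_of_four (hco : Pairwise (fun i j => (n i).Coprime (n j))) {i k : ι} (hi : n i = 4)
    (hk : n k = 4) : k = i := by
  by_contra h
  have := hco h
  simp only [hi, hk] at this
  exact absurd this (by decide)

lemma not_isUnit_cases {i : ι} (hn : Adm' n) {v : ZMod (n i)} (h : ¬ IsUnit v) :
    v = 0 ∨ (n i = 4 ∧ v = 2) := by
  rcases hn i with ⟨hp, _⟩ | h4
  · have : Fact (n i).Prime := ⟨hp⟩
    left
    by_contra h0
    exact h (isUnit_iff_ne_zero.mpr h0)
  · have key : ∀ m : ℕ, m = 4 → ∀ v : ZMod m, ¬ IsUnit v → v = 0 ∨ v = 2 := by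
      intro m hm
      subst hm
      decide
    rcases key _ h4 v h with h | h
    · exact Or.inl h
    · exact Or.inr ⟨h4, h⟩

lemma emb_pt_of_not (hn : Adm' n) {a : ∀ i, ZMod (n i)} (h : ¬ Flag a) : emb (pt a) = a := by
  funext i
  by_cases hu : IsUnit (a i)
  · obtain ⟨u, hu1, hu2⟩ := pt_of_isUnit hu
    rw [emb_some hu1, hu2]
  · rw [emb_none (pt_of_not hu)]
    rcases not_isUnit_cases hn hu with h0 | ⟨h4, h2⟩
    · exact h0.symm
    · exact absurd ⟨i, h4, h2⟩ h

lemma four_zero_ne_two {i : ι} (h4 : n i = 4) : (0 : ZMod (n i)) ≠ 2 := by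
  have key : ∀ m : ℕ, m = 4 → (0 : ZMod m) ≠ 2 := by
    intro m hm
    subst hm
    decide
  exact key _ h4

theorem c_eq_ext {N : ℕ} [NeZero N] (hn : Adm' n)
    (hco : Pairwise (fun i j => (n i).Coprime (n j)))
    (hN : ∏ i, n i = N) (E : (∀ i, ZMod (n i)) ≃+* ZMod N) {Q : Type} [AddCommGroup Q]
    {c : ZMod N → Q} (hc : OddDist c) (a : ∀ i, ZMod (n i)) :
    c (E a) = ext (fun x => c (E (emb x))) a := by
  by_cases hf : Flag a
  · obtain ⟨i, h4, h2⟩ := hf
    rw [ext_of_flag _ h4 h2]
    have hpt : pt a i = none := pt_of_not (by rw [h2]; exact not_isUnit_two h4)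
    have he : emb (pt a) = Function.update a i 0 := by
      have h1 : pt a = pt (Function.update a i 0) := by
        rw [pt_update_not a i (not_isUnit_zero hn), Dat.update_none_eq hpt]
      rw [h1]
      refine emb_pt_of_not hn ?_
      rintro ⟨k, hk4, hk2⟩
      obtain rfl := eq_of_four hco h4 hk4
      rw [Function.update_self] at hk2
      exact four_zero_ne_two h4 hk2
    change _ = c (E (emb _)) - c (E (emb _))
    rw [emb_beta hco h4 hpt, he, ← prod_four hco hN E hc h4 (Function.update a i 0),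
      Function.update_self, Function.update_idem, zero_add, ← h2, Function.update_eq_self]
    abel
  · rw [ext_of_not _ hf, emb_pt_of_not hn hf]

end C2

section C3

variable {ι : Type} [Fintype ι] [DecidableEq ι] {n : ι → ℕ} [∀ i, NeZero (n i)]

lemma isD0_prime {Q : Type} [AddCommGroup Q] {S : Finset ι} {h : (cyc n).Pt → Q}
    (hD : (cyc n).IsD0 S h) {i : ι} (hi : i ∈ S) (hp : (n i).Prime) {x : (cyc n).Pt}
    (hx : (cyc n).Supp S x) (hxi : x i = none) :
    h x + ∑ u : (cyc n).G i, h (Function.update x i (some u)) =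
      h ((cyc n).act ((cyc n).α i) x) := by
  rw [hD i hi x hx hxi, beta_one (not_four_of_prime hp), Dat.act_one]
  abel

lemma sum_update_prime {Q : Type} [AddCommGroup Q] {S : Finset ι} {h : (cyc n).Pt → Q}
    (hn : Adm' n) (hD : (cyc n).IsD0 S h) {i : ι} (hi : i ∈ S) (hp : (n i).Prime)
    {a : ∀ i, ZMod (n i)} (ha : (cyc n).Supp S (pt a)) (b : (cyc n).GG) :
    ∑ j : ZMod (n i), h ((cyc n).act b (pt (Function.update a i j))) =
      h ((cyc n).act b ((cyc n).act ((cyc n).α i) (Function.update (pt a) i none))) := by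
  set x : (cyc n).Pt := (cyc n).act b (Function.update (pt a) i none) with hx
  have hxS : (cyc n).Supp S x := (ha.update hi none).act b
  have hxi : x i = none := Dat.act_apply_none (Function.update_self ..)
  have h1 := isD0_prime hD hi hp hxS hxi
  rw [sum_prime hp]
  simp only [pt_update_vl]
  rw [pt_update_not a i (not_isUnit_zero hn), ← hx, Dat.act_act, mul_comm b, ← Dat.act_act, ← hx,
    ← h1]
  congr 1
  rw [← Equiv.sum_comp (Equiv.mulLeft (b i)) (fun u => h (Function.update x i (some u)))]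
  refine sum_congr rfl fun u _ => ?_
  congr 1
  rw [Dat.act_update_some, hx, Dat.act_update_none, Function.update_idem]
  rfl

lemma supp_pt {S : Finset ι} (hn : Adm' n) {a : ∀ i, ZMod (n i)} (ha : ∀ i, i ∉ S → a i = 0) :
    (cyc n).Supp S (pt a) := by
  intro i hi
  refine pt_of_not ?_
  rw [ha i hi]
  exact not_isUnit_zero hn

lemma odd_smul_two {k : ι} {q : ℕ} (h4 : n k = 4) (hq : q % 2 = 1) (v : ZMod (n k)) :
    q • v = 2 ↔ v = 2 := by
  have key : ∀ m : ℕ, m = 4 → ∀ v : ZMod m, q • v = 2 ↔ v = 2 := by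
    intro m hm v
    subst hm
    have h1 : (q : ZMod 4) = 1 ∨ (q : ZMod 4) = 3 := by
      have : q % 4 = 1 ∨ q % 4 = 3 := by omega
      rcases this with h | h
      · left; exact (ZMod.natCast_eq_natCast_iff' q 1 4).mpr h
      · right; exact (ZMod.natCast_eq_natCast_iff' q 3 4).mpr h
    rw [nsmul_eq_mul]
    rcases h1 with h | h <;> rw [h] <;> revert v <;> decide
  exact key _ h4 v

lemma ext_prime {Q : Type} [AddCommGroup Q] {S : Finset ι} {h : (cyc n).Pt → Q}
    (hn : Adm' n) (hco : Pairwise (fun i j => (n i).Coprime (n j)))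
    (hD : (cyc n).IsD0 S h) {i : ι} (hi : i ∈ S) (hp : (n i).Prime) (h2 : n i % 2 = 1)
    {a : ∀ i, ZMod (n i)} (ha : ∀ i, i ∉ S → a i = 0) :
    ∑ j : ZMod (n i), ext h (Function.update a i j) = ext h ((n i) • a) := by
  have hS := supp_pt hn ha
  have hne : ∀ k, n k = 4 → k ≠ i := by
    rintro k hk rfl
    exact not_four_of_prime hp hk
  by_cases hf : Flag a
  · obtain ⟨k, hk4, hk2⟩ := hf
    have hki := hne k hk4
    have e1 : ∀ j : ZMod (n i), ext h (Function.update a i j) =
        h ((cyc n).act ((cyc n).β k) (pt (Function.update a i j))) -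
          h ((cyc n).act 1 (pt (Function.update a i j))) := by
      intro j
      rw [Dat.act_one]
      exact ext_of_flag h hk4 (by rw [Function.update_of_ne hki, hk2])
    have e2 : ext h ((n i) • a) = h ((cyc n).act ((cyc n).β k) (pt ((n i) • a))) -
        h ((cyc n).act 1 (pt ((n i) • a))) := by
      rw [Dat.act_one]
      refine ext_of_flag h hk4 ?_
      rw [Pi.smul_apply]
      exact (odd_smul_two hk4 h2 _).mpr hk2
    rw [sum_congr rfl fun j _ => e1 j, e2, sum_sub_distrib, sum_update_prime hn hD hi hp hS,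
      sum_update_prime hn hD hi hp hS, pt_smul_alpha hn hco]
  · have e1 : ∀ j : ZMod (n i), ext h (Function.update a i j) =
        h ((cyc n).act 1 (pt (Function.update a i j))) := by
      intro j
      rw [Dat.act_one]
      refine ext_of_not h ?_
      rintro ⟨k, hk4, hk2⟩
      rw [Function.update_of_ne (hne k hk4)] at hk2
      exact hf ⟨k, hk4, hk2⟩
    have e2 : ext h ((n i) • a) = h ((cyc n).act 1 (pt ((n i) • a))) := by
      rw [Dat.act_one]
      refine ext_of_not h ?_
      rintro ⟨k, hk4, hk2⟩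
      rw [Pi.smul_apply, odd_smul_two hk4 h2] at hk2
      exact hf ⟨k, hk4, hk2⟩
    rw [sum_congr rfl fun j _ => e1 j, e2, sum_update_prime hn hD hi hp hS, pt_smul_alpha hn hco]

lemma four_cases {i : ι} (h4 : n i = 4) (v : ZMod (n i)) : v = 0 ∨ v = 2 ∨ v = 1 ∨ v = 3 := by
  have key : ∀ m : ℕ, m = 4 → ∀ v : ZMod m, v = 0 ∨ v = 2 ∨ v = 1 ∨ v = 3 := by
    intro m hm
    subst hm
    decide
  exact key _ h4 v

lemma four_two_two {i : ι} (h4 : n i = 4) : (2 + 2 : ZMod (n i)) = 0 := by
  have key : ∀ m : ℕ, m = 4 → (2 + 2 : ZMod m) = 0 := by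
    intro m hm
    subst hm
    decide
  exact key _ h4

lemma beta_beta (hco : Pairwise (fun i j => (n i).Coprime (n j))) {i : ι} (h4 : n i = 4)
    {x : (cyc n).Pt} (hx : x i = none) :
    (cyc n).act ((cyc n).β i) ((cyc n).act ((cyc n).β i) x) = (cyc n).act ((cyc n).α i) x := by
  rw [Dat.act_act]
  funext j
  cases hj : x j with
  | none => rw [Dat.act_apply_none hj, Dat.act_apply_none hj]
  | some u =>
    have hji : j ≠ i := by rintro rfl; rw [hx] at hj; cases hj
    rw [Dat.act_apply_some hj, Dat.act_apply_some hj]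
    congr 2
    refine vl_injective ?_
    rw [Pi.mul_apply, vl_mul, vl_beta h4 (cop_two h4 (hco (Ne.symm hji))),
      vl_alpha (hco (Ne.symm hji)), h4]
    norm_num

lemma ext_four {Q : Type} [AddCommGroup Q] {S : Finset ι} {h : (cyc n).Pt → Q}
    (hn : Adm' n) (hco : Pairwise (fun i j => (n i).Coprime (n j)))
    (hD : (cyc n).IsD0 S h) {i : ι} (hi : i ∈ S) (h4 : n i = 4)
    {a : ∀ i, ZMod (n i)} (ha : ∀ i, i ∉ S → a i = 0) :
    ext h a + ext h (Function.update a i (a i + 2)) = ext h (2 • a) := by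
  set x : (cyc n).Pt := Function.update (pt a) i none with hx
  have hxS : (cyc n).Supp S x := (supp_pt hn ha).update hi none
  have hxi : x i = none := Function.update_self ..
  have hpt : pt (2 • a) = (cyc n).act ((cyc n).β i) x := pt_smul_beta hco a h4
  have hnf : ∀ b : ∀ i, ZMod (n i), b i ≠ 2 → ¬ Flag b := by
    rintro b hb ⟨k, hk4, hk2⟩
    obtain rfl := eq_of_four hco h4 hk4
    exact hb hk2
  have T0 : ext h (Function.update a i 0) = h x := by
    rw [ext_of_not h (hnf _ (by rw [Function.update_self]; exact four_zero_ne_two h4)),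
      pt_update_not a i (not_isUnit_zero hn)]
  have T2 : ext h (Function.update a i 2) = h ((cyc n).act ((cyc n).β i) x) - h x := by
    rw [ext_of_flag h h4 (Function.update_self ..), pt_update_not a i (not_isUnit_two h4)]
  have T13 : ext h (Function.update a i 1) + ext h (Function.update a i 3) =
      h ((cyc n).act ((cyc n).α i) x) - h ((cyc n).act ((cyc n).β i) x) := by
    rw [← hD i hi x hxS hxi, ← sum_four h4 (fun v => ext h (Function.update a i v))]
    refine sum_congr rfl fun u _ => ?_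
    rw [ext_of_not h (hnf _ ?_), pt_update_vl, hx, Function.update_idem]
    rw [Function.update_self]
    intro h'
    exact not_isUnit_two h4 (h' ▸ vl_isUnit u)
  have e2 : ∀ b : ∀ i, ZMod (n i), b = Function.update b i (b i) :=
    fun b => (Function.update_eq_self i b).symm
  have hz : ∀ v : ZMod (n i), a i = v → 2 • v = 0 →
      ext h (2 • a) = h ((cyc n).act ((cyc n).β i) x) := by
    intro v hv hv2
    rw [ext_of_not h (hnf _ (by rw [Pi.smul_apply, hv, hv2]; exact four_zero_ne_two h4)), hpt]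
  have ho : ∀ v : ZMod (n i), a i = v → 2 • v = 2 → ext h (2 • a) =
      h ((cyc n).act ((cyc n).α i) x) - h ((cyc n).act ((cyc n).β i) x) := by
    intro v hv hv2
    rw [ext_of_flag h h4 (by rw [Pi.smul_apply, hv, hv2]), hpt, beta_beta hco h4 hxi]
  have h22 := four_two_two h4
  have hl : ext h a = ext h (Function.update a i (a i)) := by rw [Function.update_eq_self]
  rw [hl]
  rcases four_cases h4 (a i) with hv | hv | hv | hv
  · rw [hz _ hv (by rw [smul_zero]), hv, zero_add, T0, T2]; abel
  · rw [hz _ hv (by rw [two_nsmul]; exact h22), hv, h22, T0, T2]; abel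
  · have e3 : (1 + 2 : ZMod (n i)) = 3 := by norm_num
    rw [ho _ hv (by rw [two_nsmul]; norm_num), hv, e3, T13]
  · have e5 : (3 + 2 : ZMod (n i)) = 1 := by
      have : (3 + 2 : ZMod (n i)) = 1 + (2 + 2) := by norm_num
      rw [this, h22, add_zero]
    have e6 : 2 • (3 : ZMod (n i)) = 2 := by
      have : 2 • (3 : ZMod (n i)) = 2 + (2 + 2) := by rw [two_nsmul]; norm_num
      rw [this, h22, add_zero]
    rw [ho _ hv e6, hv, e5, add_comm, T13]

/-- the embedding of level `m0` -/
def phi (n : ι → ℕ) (l : ℕ) {m0 : ℕ} (b : ZMod m0) : ∀ i, ZMod (n i) :=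
  fun i => ((l * b.val : ℕ) : ZMod (n i))

lemma phi_natCast {l m0 : ℕ} (hd : ∀ i, n i ∣ l * m0) (k : ℕ) :
    phi n l (k : ZMod m0) = fun i => ((l * k : ℕ) : ZMod (n i)) := by
  funext i
  unfold phi
  rw [ZMod.val_natCast, ZMod.natCast_eq_natCast_iff]
  have h1 : l * (k % m0) ≡ l * k [MOD l * m0] := Nat.ModEq.mul_left' l (Nat.mod_modEq k m0)
  exact h1.of_dvd (hd i)

lemma phi_add {l m0 : ℕ} [NeZero m0] (hd : ∀ i, n i ∣ l * m0) (a b : ZMod m0) :
    phi n l (a + b) = phi n l a + phi n l b := by
  have h1 : a + b = ((a.val + b.val : ℕ) : ZMod m0) := by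
    push_cast
    rw [ZMod.natCast_zmod_val, ZMod.natCast_zmod_val]
  rw [h1, phi_natCast hd]
  funext i
  rw [Pi.add_apply]
  unfold phi
  push_cast; ring

lemma phi_zero {l m0 : ℕ} : phi n l (0 : ZMod m0) = 0 := by
  funext i
  unfold phi
  simp

lemma phi_neg {l m0 : ℕ} [NeZero m0] (hd : ∀ i, n i ∣ l * m0) (a : ZMod m0) :
    phi n l (-a) = - phi n l a := by
  have := phi_add hd a (-a)
  rw [add_neg_cancel, phi_zero] at this
  exact (neg_eq_of_add_eq_zero_right this.symm).symm

lemma phi_mul {l m0 : ℕ} [NeZero m0] (hd : ∀ i, n i ∣ l * m0) (k : ℕ) (a : ZMod m0) :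
    phi n l ((k : ZMod m0) * a) = k • phi n l a := by
  have h1 : (k : ZMod m0) * a = ((k * a.val : ℕ) : ZMod m0) := by
    push_cast
    rw [ZMod.natCast_zmod_val]
  rw [h1, phi_natCast hd]
  funext i
  rw [Pi.smul_apply, nsmul_eq_mul]
  unfold phi
  push_cast; ring

lemma ext_neg {S : Finset ι} {h : (cyc n).Pt → ℚ} (hn : Adm' n)
    (hodd : ∀ x, (cyc n).Supp S x → h ((cyc n).act (cyc n).c x) = - h x)
    {a : ∀ i, ZMod (n i)} (ha : ∀ i, i ∉ S → a i = 0) : ext h (-a) = - ext h a := by
  have hS := supp_pt hn ha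
  have key : ∀ k, n k = 4 → (-a k = 2 ↔ a k = 2) := by
    intro k hk
    have key : ∀ m : ℕ, m = 4 → ∀ v : ZMod m, -v = 2 ↔ v = 2 := by
      intro m hm
      subst hm
      decide
    exact key _ hk (a k)
  by_cases hf : Flag a
  · obtain ⟨k, hk4, hk2⟩ := hf
    rw [ext_of_flag h hk4 hk2, ext_of_flag h hk4 (by rw [Pi.neg_apply]; exact (key k hk4).mpr hk2),
      pt_neg, Dat.act_act, mul_comm, ← Dat.act_act, hodd _ (hS.act _), hodd _ hS]
    ring
  · rw [ext_of_not h hf, ext_of_not h, pt_neg, hodd _ hS]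
    rintro ⟨k, hk4, hk2⟩
    exact hf ⟨k, hk4, (key k hk4).mp hk2⟩

theorem oddDist_ext (hn : Adm' n) (hco : Pairwise (fun i j => (n i).Coprime (n j)))
    (S : Finset ι) {m0 : ℕ} [NeZero m0] (hm0 : ∏ i ∈ S, n i = m0) (l : ℕ)
    (hl : ∀ i, i ∉ S → n i ∣ l) (hl' : ∀ i ∈ S, l.Coprime (n i)) {h : (cyc n).Pt → ℚ}
    (hD : (cyc n).IsD0 S h)
    (hodd : ∀ x, (cyc n).Supp S x → h ((cyc n).act (cyc n).c x) = - h x) :
    OddDist (fun b : ZMod m0 => ext h (fun i => ((l * b.val : ℕ) : ZMod (n i)))) := by
  have hd : ∀ i, n i ∣ l * m0 := by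
    intro i
    by_cases hi : i ∈ S
    · exact (hm0 ▸ Finset.dvd_prod_of_mem n hi).mul_left l
    · exact (hl i hi).mul_right m0
  have hsup : ∀ b : ZMod m0, ∀ i, i ∉ S → phi n l b i = 0 := by
    intro b i hi
    unfold phi
    rw [ZMod.natCast_eq_zero_iff]
    exact (hl i hi).mul_right _
  change OddDist (fun b : ZMod m0 => ext h (phi n l b))
  have hneg : ∀ a : ZMod m0, ext h (phi n l (-a)) = - ext h (phi n l a) := by
    intro a
    rw [phi_neg hd, ext_neg hn hodd (hsup a)]
  refine ⟨hneg, ?_, ?_⟩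
  · intro a ha
    have h1 := hneg a
    rw [← eq_neg_of_add_eq_zero_left ha] at h1
    linarith
  · intro p d hp hpd a
    change ∑ k ∈ range p, ext h (phi n l (a + (k : ZMod m0) * (d : ZMod m0))) =
      ext h (phi n l ((p : ZMod m0) * a))
    rw [phi_mul hd]
    have hterm : ∀ k : ℕ, phi n l (a + (k : ZMod m0) * (d : ZMod m0)) =
        phi n l a + fun i => ((l * (k * d) : ℕ) : ZMod (n i)) := by
      intro k
      rw [phi_add hd]
      congr 1
      rw [← phi_natCast hd]
      congr 1
      push_cast; rfl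
    simp only [hterm]
    obtain ⟨i, hiS, hpi⟩ : ∃ i ∈ S, p ∣ n i := by
      rw [← (Nat.Prime.prime hp).dvd_finsetProd_iff, hm0]
      exact ⟨d, hpd.symm⟩
    set M := ∏ j ∈ S.erase i, n j with hM
    have hiM : n i * M = m0 := by rw [hM, Finset.mul_prod_erase S n hiS, hm0]
    have hcop : (n i).Coprime M :=
      Nat.Coprime.prod_right fun j hj => hco (Finset.ne_of_mem_erase hj).symm
    have hother : ∀ j, j ≠ i → n j ∣ l * M := by
      intro j hj
      by_cases hjS : j ∈ S
      · exact (Finset.dvd_prod_of_mem n (Finset.mem_erase.mpr ⟨hj, hjS⟩)).mul_left l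
      · exact (hl j hjS).mul_right M
    rcases hn i with ⟨hp', h2⟩ | h4
    · obtain rfl : p = n i := (Nat.prime_dvd_prime_iff_eq hp hp').mp hpi
      obtain rfl : d = M := Nat.eq_of_mul_eq_mul_left hp.pos (hpd.trans hiM.symm)
      rw [← ext_prime hn hco hD hiS hp' h2 (hsup a)]
      have hfact : Fact (n i).Prime := ⟨hp'⟩
      have hMu : IsUnit ((l * M : ℕ) : ZMod (n i)) := by
        rw [ZMod.isUnit_iff_coprime]
        exact Nat.Coprime.mul_left (hl' i hiS) hcop.symm
      have hterm2 : ∀ k : ℕ, (phi n l a + fun i => ((l * (k * M) : ℕ) : ZMod (n i))) =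
          Function.update (phi n l a) i
            (phi n l a i + (k : ZMod (n i)) * ((l * M : ℕ) : ZMod (n i))) := by
        intro k
        funext j
        by_cases hj : j = i
        · subst hj
          rw [Function.update_self, Pi.add_apply]
          push_cast; ring
        · rw [Function.update_of_ne hj, Pi.add_apply]
          have : ((l * (k * M) : ℕ) : ZMod (n j)) = 0 := by
            rw [ZMod.natCast_eq_zero_iff]
            have e : l * (k * M) = k * (l * M) := by ring
            rw [e]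
            exact (hother j hj).mul_left k
          rw [this, add_zero]
      simp only [hterm2]
      refine sum_bij (fun k _ => phi n l a i + (k : ZMod (n i)) * ((l * M : ℕ) : ZMod (n i)))
        (fun _ _ => mem_univ _) ?_ ?_ (fun _ _ => rfl)
      · intro k hk k' hk' h
        have h3 : (k : ZMod (n i)) = (k' : ZMod (n i)) := hMu.mul_right_cancel (add_left_cancel h)
        rw [ZMod.natCast_eq_natCast_iff'] at h3
        rwa [Nat.mod_eq_of_lt (mem_range.mp hk), Nat.mod_eq_of_lt (mem_range.mp hk')] at h3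
      · intro j _
        obtain ⟨u, hu⟩ := hMu
        refine ⟨((j - phi n l a i) * (u⁻¹ : (ZMod (n i))ˣ)).val, mem_range.mpr (ZMod.val_lt _), ?_⟩
        rw [ZMod.natCast_zmod_val, ← hu, mul_assoc, Units.inv_mul, mul_one, add_sub_cancel]
    · obtain rfl : p = 2 := by
        rw [h4] at hpi
        have h22 : p ∣ 2 ^ 2 := by norm_num; exact hpi
        exact (Nat.prime_dvd_prime_iff_eq hp Nat.prime_two).mp (hp.dvd_of_dvd_pow h22)
      have hdM : d = 2 * M := by
        rw [h4] at hiM
        omega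
      rw [sum_range_succ, sum_range_one, ← ext_four hn hco hD hiS h4 (hsup a)]
      congr 1
      · congr 1
        funext j
        rw [Pi.add_apply]; push_cast; ring
      · congr 1
        have hlM : (l * M) % 2 = 1 := by
          have h1 : Nat.Coprime 2 M := Nat.Coprime.coprime_dvd_left (by rw [h4]; norm_num) hcop
          have h2 : Nat.Coprime 2 l :=
            Nat.Coprime.coprime_dvd_left (by rw [h4]; norm_num) (hl' i hiS).symm
          have h3 : Nat.Coprime 2 (l * M) := Nat.Coprime.mul_right h2 h1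
          rw [Nat.coprime_two_left] at h3
          exact Nat.odd_iff.mp h3
        have e1 : l * (1 * d) = 2 * (l * M) := by rw [hdM]; ring
        funext j
        by_cases hj : j = i
        · subst hj
          rw [Function.update_self, Pi.add_apply]
          congr 1
          have h5 : ((l * (1 * d) : ℕ) : ZMod (n j)) = ((2 : ℕ) : ZMod (n j)) := by
            rw [ZMod.natCast_eq_natCast_iff', h4, e1]
            omega
          rw [h5]; push_cast; rfl
        · rw [Function.update_of_ne hj, Pi.add_apply]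
          have : ((l * (1 * d) : ℕ) : ZMod (n j)) = 0 := by
            rw [ZMod.natCast_eq_zero_iff, e1]
            exact (hother j hj).mul_left 2
          rw [this, add_zero]

end C3

end Pool.Agent.N993
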