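import Pool.Agent.N208.BT.Stm5
import Pool.Agent.Y102.V8
import Pool.Agent.Y102.V12

set_option autoImplicit false

/-!
# Project BT (helper208), BG/SL: separation excludes links between two places (by helper999)
-/

open Module Matrix

noncomputable section

namespace Pool.Agent.N999.BGSL

open Pool.Agent.Y102 Pool.Agent.N208.BT Pool.Agent.N208.AD

variable {g : ℕ} {A : AbVar g} {𝔮 : Submodule ℚ (Module.End ℚ A.H1)} {z : Module.End ℚ A.H1}

theorem CB_mul {X Y : Module.End ℚ A.H1} (hX : X ∈ CB A) (hY : Y ∈ CB A) : X * Y ∈ CB A := by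
  intro P hP
  have h1 : X * P = P * X := hX P hP
  have h2 : Y * P = P * Y := hY P hP
  rw [mul_assoc, h2, ← mul_assoc, h1, mul_assoc]

/-- the algebra generated by the derived algebra -/
def D1 (𝔮 : Submodule ℚ (Module.End ℚ A.H1)) : Subalgebra ℚ (Module.End ℚ A.H1) :=
  Algebra.adjoin ℚ (der 𝔮 : Set (Module.End ℚ A.H1))

theorem D1_CB (h : A.Full 𝔮) : ∀ X ∈ D1 𝔮, X ∈ CB A := by
  intro X hX
  unfold D1 at hX
  induction hX using Algebra.adjoin_induction with
  | mem X hX => exact fun P hP => A.NA_comm (h.le (h.der_le hX)) hP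
  | algebraMap r => exact fun P _ => Algebra.commutes r P
  | add X Y _ _ hX hY => exact (CB A).add_mem hX hY
  | mul X Y _ _ hX hY => exact CB_mul hX hY

theorem mem_EA_of_comm (h : A.Full 𝔮) {P : Module.End ℚ A.H1} (hP : ∀ X ∈ 𝔮, X * P = P * X) :
    P ∈ A.EA := fun Y hY => h.comm P hP Y (A.LA_le_NA hY)

theorem gen_aux {al : ℝ} (hz : HQ A z al) (h : A.Full 𝔮) {X : Module.End ℚ A.H1} (hX : X ∈ CB A) :
    ∃ X' ∈ Algebra.adjoin ℚ ((D1 𝔮 : Set (Module.End ℚ A.H1)) ∪ {z}), X * z = X' * z := by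
  have hXa : X ∈ Algebra.adjoin ℚ (𝔮 : Set (Module.End ℚ A.H1)) :=
    mem_adjoin_of_comm h.semi (fun P hP => hX P (mem_EA_of_comm h hP))
  obtain ⟨E, hE⟩ : ∃ E : Subalgebra ℚ (Module.End ℚ A.H1),
    E = Algebra.adjoin ℚ ((D1 𝔮 : Set (Module.End ℚ A.H1)) ∪ {z}) := ⟨_, rfl⟩
  rw [← hE]
  have hEz : ∀ Y ∈ E, Y * z = z * Y := by
    intro Y hY
    rw [hE] at hY
    induction hY using Algebra.adjoin_induction with
    | mem Y hY =>
      rcases hY with hY | hY
      · exact (D1_CB h Y hY) z hz.mem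
      · rw [Set.mem_singleton_iff.1 hY]
    | algebraMap r => exact Algebra.commutes r z
    | add X Y _ _ hX hY => rw [add_mul, mul_add, hX, hY]
    | mul X Y _ _ hX hY => rw [mul_assoc, hY, ← mul_assoc, hX, mul_assoc]
  clear hX
  induction hXa using Algebra.adjoin_induction with
  | mem X hX =>
    obtain ⟨Z, hZ, d, hd, rfl, hZc⟩ := h.dec hX
    have hZEA : Z ∈ A.EA := mem_EA_of_comm h fun Y hY => (hZc Y hY).symm
    obtain ⟨q0, hq0⟩ := hz.gen Z hZEA (fun Q hQ => A.NA_comm (h.le hZ) hQ)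
    refine ⟨Polynomial.aeval z q0 + d, E.add_mem ?_ ?_, by rw [add_mul, add_mul, hq0]⟩
    · rw [hE]
      exact Algebra.adjoin_mono Set.subset_union_right (Polynomial.aeval_mem_adjoin_singleton ℚ z)
    · rw [hE]
      exact Algebra.subset_adjoin (Or.inl (Algebra.subset_adjoin hd))
  | algebraMap r => exact ⟨_, E.algebraMap_mem r, rfl⟩
  | add X Y _ _ hX hY =>
    obtain ⟨X', hX', eX⟩ := hX
    obtain ⟨Y', hY', eY⟩ := hY
    exact ⟨X' + Y', E.add_mem hX' hY', by rw [add_mul, add_mul, eX, eY]⟩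
  | mul X Y _ _ hX hY =>
    obtain ⟨X', hX', eX⟩ := hX
    obtain ⟨Y', hY', eY⟩ := hY
    refine ⟨X' * Y', E.mul_mem hX' hY', ?_⟩
    calc X * Y * z = X * (Y' * z) := by rw [mul_assoc, eY]
      _ = X * z * Y' := by rw [hEz Y' hY', mul_assoc]
      _ = X' * (z * Y') := by rw [eX, mul_assoc]
      _ = X' * Y' * z := by rw [← hEz Y' hY', mul_assoc]

theorem ext_one : A.ext (1 : Module.End ℚ A.H1) = 1 := by
  refine A.ext_per fun u => ?_
  rw [A.ext_apply]
  rfl

theorem ext_alg {N : ℕ} (φ : VN N →ₗ[ℝ] (Fin g → ℂ)) (r : ℚ) (x : VN N) :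
    A.ext (algebraMap ℚ (Module.End ℚ A.H1) r) (φ x) = φ ((algebraMap ℚ ℂ r) • x) := by
  rw [Algebra.algebraMap_eq_smul_one, ext_smul, ext_one, LinearMap.smul_apply, Module.End.one_apply,
    ← map_smul]
  congr 1

/-- polynomials in `z` act by scalars -/
theorem act_poly {N : ℕ} {φ : VN N →ₗ[ℝ] (Fin g → ℂ)} {c : ℂ}
    (h : ∀ x, A.ext z (φ x) = φ (c • x)) (q : Polynomial ℚ) :
    ∀ x, A.ext (Polynomial.aeval z q) (φ x) = φ (Polynomial.aeval c q • x) := by
  induction q using Polynomial.induction_on with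
  | C a =>
    intro x
    rw [Polynomial.aeval_C, Polynomial.aeval_C, ext_alg]
  | add p q hp hq =>
    intro x
    rw [map_add, map_add, ext_add, LinearMap.add_apply, hp, hq, add_smul, map_add]
  | monomial n a h' =>
    intro x
    have e1 : Polynomial.aeval z (Polynomial.C a * Polynomial.X ^ (n + 1)) =
        Polynomial.aeval z (Polynomial.C a * Polynomial.X ^ n) * z := by
      rw [pow_succ, ← mul_assoc, map_mul (Polynomial.aeval z) (Polynomial.C a * Polynomial.X ^ n),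
        Polynomial.aeval_X]
    have e2 : Polynomial.aeval c (Polynomial.C a * Polynomial.X ^ (n + 1)) =
        Polynomial.aeval c (Polynomial.C a * Polynomial.X ^ n) * c := by
      rw [pow_succ, ← mul_assoc, map_mul (Polynomial.aeval c) (Polynomial.C a * Polynomial.X ^ n),
        Polynomial.aeval_X]
    rw [e1, e2, ext_mul, Module.End.mul_apply, h, h', smul_smul]

theorem act_z {al : ℝ} (hz : HQ A z al) {N : ℕ} {sg : Fin N → ℝ} {φ : VN N →ₗ[ℝ] (Fin g → ℂ)}
    (hW : WN A z al N sg φ) (x : VN N) :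
    A.ext z (φ x) = φ (((al : ℂ) * Complex.I) • x) := by
  have h1 : ((al : ℂ) * Complex.I) • x = al • (Complex.I • x) := by
    ext i
    rw [Pi.smul_apply, Pi.smul_apply, Complex.real_smul, Pi.smul_apply, smul_eq_mul, smul_eq_mul,
      mul_assoc]
  rw [h1, map_smul, hW.mulI, smul_smul, mul_inv_cancel₀ hz.ne, one_smul]

/-- elements of the Lie algebra act by matrices -/
theorem exists_mat {al : ℝ} (hz : HQ A z al) {N : ℕ} {sg : Fin N → ℝ}
    {φ : VN N →ₗ[ℝ] (Fin g → ℂ)} (hW : WN A z al N sg φ) {X : Module.End ℚ A.H1} (hX : X ∈ A.NA) :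
    ∃ m : MN N, ∀ x, A.ext X (φ x) = φ (m *ᵥ x) := by
  choose f hf using hW.stab X hX
  have hadd : ∀ x y, f (x + y) = f x + f y := fun x y => hW.inj (by
    rw [← hf, map_add, map_add, hf, hf, map_add])
  have hsm : ∀ (c : ℝ) (x : VN N), f (c • x) = c • f x := fun c x => hW.inj (by
    rw [← hf, map_smul, map_smul, hf, map_smul])
  have hI : ∀ x, f (Complex.I • x) = Complex.I • f x := by
    intro x
    apply hW.inj
    rw [← hf, hW.mulI, hW.mulI, map_smul, ← hf]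
    congr 1
    have h1 : A.ext X * A.ext z = A.ext z * A.ext X := by
      rw [← ext_mul, ← ext_mul, A.NA_comm hX hz.mem]
    exact LinearMap.congr_fun h1 (φ x)
  have hc : ∀ (c : ℂ) (x : VN N), c • x = c.re • x + c.im • (Complex.I • x) := by
    intro c x
    ext i
    rw [Pi.add_apply, Pi.smul_apply, Pi.smul_apply, Pi.smul_apply, Pi.smul_apply, Complex.real_smul,
      Complex.real_smul, smul_eq_mul, smul_eq_mul]
    conv_lhs => rw [← Complex.re_add_im c]
    ring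
  let F : VN N →ₗ[ℂ] VN N :=
    { toFun := f
      map_add' := hadd
      map_smul' := fun c x => by
        rw [RingHom.id_apply, hc c x, hadd, hsm, hsm, hI, ← hc] }
  refine ⟨LinearMap.toMatrix' F, fun x => ?_⟩
  rw [LinearMap.toMatrix'_mulVec]
  exact hf x

theorem scal_mulVec {N : ℕ} (c : ℂ) (x : VN N) : (c • (1 : MN N)) *ᵥ x = c • x := by
  rw [Matrix.smul_mulVec, Matrix.one_mulVec]

/-- the elements of the algebra act by linked matrices -/
theorem adj_mats (τ : ℂ →+* ℂ) {al be : ℝ} (hz : HQ A z al) (hz' : HQ A z be) {N N' : ℕ}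
    {sg : Fin N → ℝ} {sg' : Fin N' → ℝ} {φ : VN N →ₗ[ℝ] (Fin g → ℂ)}
    {φ' : VN N' →ₗ[ℝ] (Fin g → ℂ)} (hW : WN A z al N sg φ) (hW' : WN A z be N' sg' φ')
    (h : A.Full 𝔮) {S : Matrix (Fin N') (Fin N) ℂ}
    (hS : ∀ p ∈ rN2 A (der 𝔮) φ φ', p.2 * S = S * p.1.map τ) :
    ∀ X ∈ D1 𝔮, ∃ (m : MN N) (m' : MN N'), (∀ x, A.ext X (φ x) = φ (m *ᵥ x)) ∧
      (∀ x, A.ext X (φ' x) = φ' (m' *ᵥ x)) ∧ m' * S = S * m.map τ := by
  intro X hX
  unfold D1 at hX
  induction hX using Algebra.adjoin_induction with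
  | mem X hX =>
    obtain ⟨m, hm⟩ := exists_mat hz hW (h.le (h.der_le hX))
    obtain ⟨m', hm'⟩ := exists_mat hz' hW' (h.le (h.der_le hX))
    exact ⟨m, m', hm, hm', hS (m, m') ⟨A.ext X, mem_spE hX, hm, hm'⟩⟩
  | algebraMap r =>
    refine ⟨(algebraMap ℚ ℂ r) • 1, (algebraMap ℚ ℂ r) • 1, fun x => ?_, fun x => ?_, ?_⟩
    · rw [ext_alg, scal_mulVec]
    · rw [ext_alg, scal_mulVec]
    · have h1 : (((algebraMap ℚ ℂ r) • (1 : MN N)).map τ) = (algebraMap ℚ ℂ r) • (1 : MN N) := by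
        ext i j
        rw [Matrix.map_apply, Matrix.smul_apply, smul_eq_mul, map_mul, eq_ratCast, map_ratCast,
          Matrix.one_apply]
        split_ifs
        · rw [map_one]
        · rw [map_zero]
      rw [h1, Matrix.smul_mul, Matrix.one_mul, Matrix.mul_smul, Matrix.mul_one]
  | add X Y _ _ hX hY =>
    obtain ⟨m, m', h1, h2, h3⟩ := hX
    obtain ⟨n, n', k1, k2, k3⟩ := hY
    refine ⟨m + n, m' + n', fun x => ?_, fun x => ?_, ?_⟩
    · rw [ext_add, LinearMap.add_apply, h1, k1, Matrix.add_mulVec, map_add]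
    · rw [ext_add, LinearMap.add_apply, h2, k2, Matrix.add_mulVec, map_add]
    · rw [Matrix.map_add τ (map_add τ), Matrix.add_mul, Matrix.mul_add, h3, k3]
  | mul X Y _ _ hX hY =>
    obtain ⟨m, m', h1, h2, h3⟩ := hX
    obtain ⟨n, n', k1, k2, k3⟩ := hY
    refine ⟨m * n, m' * n', fun x => ?_, fun x => ?_, ?_⟩
    · rw [ext_mul, Module.End.mul_apply, k1, h1, Matrix.mulVec_mulVec]
    · rw [ext_mul, Module.End.mul_apply, k2, h2, Matrix.mulVec_mulVec]
    · rw [Matrix.map_mul, Matrix.mul_assoc, k3, ← Matrix.mul_assoc, h3, Matrix.mul_assoc]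

/-- an element which acts as a polynomial in `z` has a scalar matrix -/
theorem scal_mat {al : ℝ} (hz : HQ A z al) {N : ℕ} {sg : Fin N → ℝ}
    {φ : VN N →ₗ[ℝ] (Fin g → ℂ)} (hW : WN A z al N sg φ) {X : Module.End ℚ A.H1}
    {q : Polynomial ℚ} (hX : X * z = Polynomial.aeval z q * z) {m : MN N}
    (hm : ∀ x, A.ext X (φ x) = φ (m *ᵥ x)) :
    m = Polynomial.aeval ((al : ℂ) * Complex.I) q • (1 : MN N) := by
  have hc : (al : ℂ) * Complex.I ≠ 0 :=
    mul_ne_zero (Complex.ofReal_ne_zero.2 hz.ne) Complex.I_ne_zero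
  have h1 : ∀ x : VN N, m *ᵥ (((al : ℂ) * Complex.I) • x) =
      Polynomial.aeval ((al : ℂ) * Complex.I) q • (((al : ℂ) * Complex.I) • x) := by
    intro x
    apply hW.inj
    rw [← hm, ← act_z hz hW, ← Module.End.mul_apply, ← ext_mul, hX, ext_mul, Module.End.mul_apply,
      act_z hz hW, act_poly (act_z hz hW)]
  have h2 : ∀ x : VN N, m *ᵥ x = Polynomial.aeval ((al : ℂ) * Complex.I) q • x := by
    intro x
    have h3 := h1 (((al : ℂ) * Complex.I)⁻¹ • x)
    rw [smul_smul, mul_inv_cancel₀ hc, one_smul] at h3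
    exact h3
  apply Matrix.ext_of_mulVec_single
  intro i
  rw [h2, scal_mulVec]

theorem key (τ : ℂ →+* ℂ) {al be : ℝ} (hz : HQ A z al) (hz' : HQ A z be) {N N' : ℕ}
    {sg : Fin N → ℝ} {sg' : Fin N' → ℝ} {φ : VN N →ₗ[ℝ] (Fin g → ℂ)}
    {φ' : VN N' →ₗ[ℝ] (Fin g → ℂ)} (hW : WN A z al N sg φ) (hW' : WN A z be N' sg' φ')
    (h : A.Full 𝔮) {S : Matrix (Fin N') (Fin N) ℂ} (hS0 : S ≠ 0)
    (hS : ∀ p ∈ rN2 A (der 𝔮) φ φ', p.2 * S = S * p.1.map τ) {X : Module.End ℚ A.H1}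
    (hX : X ∈ D1 𝔮) {q : Polynomial ℚ} (hq : X * z = Polynomial.aeval z q * z) :
    Polynomial.aeval (τ ((al : ℂ) * Complex.I)) q = Polynomial.aeval ((be : ℂ) * Complex.I) q := by
  obtain ⟨m, m', h1, h2, h3⟩ := adj_mats τ hz hz' hW hW' h hS X hX
  have e1 := scal_mat hz hW hq h1
  have e2 := scal_mat hz' hW' hq h2
  have h4 : (m.map τ) = τ (Polynomial.aeval ((al : ℂ) * Complex.I) q) • (1 : MN N) := by
    rw [e1]
    ext i j
    rw [Matrix.map_apply, Matrix.smul_apply, Matrix.smul_apply, smul_eq_mul, smul_eq_mul, map_mul,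
      Matrix.one_apply]
    split_ifs
    · rw [map_one]
    · rw [map_zero]
  rw [h4, e2, Matrix.smul_mul, Matrix.one_mul, Matrix.mul_smul, Matrix.mul_one] at h3
  have h5 : (Polynomial.aeval ((be : ℂ) * Complex.I) q -
      τ (Polynomial.aeval ((al : ℂ) * Complex.I) q)) • S = 0 := by
    rw [sub_smul, h3, sub_self]
  rcases smul_eq_zero.1 h5 with h6 | h6
  · have h7 := Polynomial.aeval_algHom_apply τ.toRatAlgHom ((al : ℂ) * Complex.I) q
    have h8 : Polynomial.aeval (τ ((al : ℂ) * Complex.I)) q =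
        τ (Polynomial.aeval ((al : ℂ) * Complex.I) q) := h7
    rw [h8, ← sub_eq_zero.1 h6]
  · exact absurd h6 hS0

/-- **BG/SL.** -/
theorem main : Pool.Agent.N208.BT.G_SL := by
  intro g A z Sg hG al hal be hbe hne N N' sg sg' φ φ' hW hW' 𝔮 h hL
  have hz := hG.hq al hal
  have hz' := hG.hq be hbe
  have hne' : al ≠ -be := by
    intro e
    exact hG.disj be hbe (e ▸ hal)
  rcases hL with ⟨S, hS0, hS⟩ | ⟨S, hS0, hS⟩
  · obtain ⟨q, X, hX, e, hq⟩ := hG.sep (D1 𝔮) (D1_CB h) (fun X hX => gen_aux hz h hX) al be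
      (Or.inl hal) (Or.inl hbe) hne hne'
    apply hq
    refine key (RingHom.id ℂ) hz hz' hW hW' h hS0 ?_ hX e
    intro p hp
    rw [hS p hp]
    congr 1
  · obtain ⟨q, X, hX, e, hq⟩ := hG.sep (D1 𝔮) (D1_CB h) (fun X hX => gen_aux hz h hX) (-al) be
      (Or.inr (by rw [neg_neg]; exact hal)) (Or.inl hbe)
      (fun e => hne' (by rw [← e, neg_neg])) (fun e => hne (neg_injective e))
    apply hq
    have h1 := key (starRingEnd ℂ) hz hz' hW hW' h hS0 hS hX e
    rw [map_mul, Complex.conj_ofReal, Complex.conj_I] at h1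
    have e1 : ((-al : ℝ) : ℂ) * Complex.I = (al : ℂ) * -Complex.I := by
      push_cast
      ring
    rw [e1]
    exact h1

end Pool.Agent.N999.BGSL
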