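import Pool.Agent.N894.WF.Defs

/-!
Project WF (helper894), leaf C3 (helper999): assembly of the Nikolov-Segal part.
-/

set_option autoImplicit false

namespace Pool.Agent.N999.WF

open N894.WF

section len

variable {A : Type} [Group A] (ell : A → ℝ) (h1 : ell 1 = 0)
  (hmul : ∀ a b, ell (a * b) ≤ ell a + ell b)

include h1 hmul in
lemma list_le (B : ℝ) (l : List A) (hl : ∀ y ∈ l, ell y ≤ B) : ell l.prod ≤ l.length * B := by
  induction l with
  | nil => simp [h1]
  | cons a l ih =>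
    rw [List.prod_cons, List.length_cons]
    have h0 := hmul a l.prod
    have h2 := hl a (by simp)
    have h3 := ih fun y hy => hl y (by simp [hy])
    push_cast
    linarith

include h1 hmul in
lemma npow_le (a : A) (n : ℕ) : ell (a ^ n) ≤ n * ell a := by
  induction n with
  | zero => simp [h1]
  | succ n ih =>
    rw [pow_succ]
    have h0 := hmul (a ^ n) a
    push_cast
    linarith

include h1 hmul in
lemma zpow_le (hinv : ∀ a, ell a⁻¹ = ell a) (a : A) (n : ℤ) :
    ell (a ^ n) ≤ ((|n| : ℤ) : ℝ) * ell a := by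
  cases n with
  | ofNat n =>
    have := npow_le ell h1 hmul a n
    simpa using this
  | negSucc n =>
    have := npow_le ell h1 hmul a (n + 1)
    rw [zpow_negSucc, hinv]
    refine this.trans (le_of_eq ?_)
    rw [Int.abs_eq_natAbs, Int.natAbs_negSucc]
    push_cast
    rfl

end len

lemma ind_congr {H S : Type} [Group H] (C : Subgroup H) (x y : H) (s : S) (h : y * x⁻¹ ∈ C)
    (z : H) (w : S) : ind C x s z w = ind C y s z w := by
  unfold ind
  have h2 : z * x⁻¹ ∈ C ↔ z * y⁻¹ ∈ C := by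
    have e : z * x⁻¹ = z * y⁻¹ * (y * x⁻¹) := by group
    rw [e]
    exact C.mul_mem_cancel_right h
  by_cases h3 : w = s ∧ z * x⁻¹ ∈ C
  · rw [if_pos h3, if_pos ⟨h3.1, h2.1 h3.2⟩]
  · rw [if_neg h3, if_neg fun h4 => h3 ⟨h4.1, h2.2 h4.2⟩]

lemma ind_zero {H S : Type} [Group H] (C : Subgroup H) (x : H) (s : S) (z : H) (w : S)
    (h : ¬ (w = s ∧ z * x⁻¹ ∈ C)) : ind C x s z w = 0 := by
  unfold ind
  rw [if_neg h]

lemma ind_01 {H S : Type} [Group H] (C : Subgroup H) (x : H) (s : S) (z : H) (w : S) :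
    0 ≤ ind C x s z w ∧ ind C x s z w ≤ 1 := by
  unfold ind
  split_ifs <;> constructor <;> norm_num

/-- the exact identity from the congruences -/
lemma exact_id (K m L : ℕ)
    (hLIN : ∀ (ι X : Type) [Fintype ι], Fintype.card ι ≤ K →
    ∀ (A : ι → X → ℤ) (v : X → ℤ) (Y : Finset X), Y.card ≤ 3 * K + 1 →
      (∀ x, x ∉ Y → v x = 0 ∧ ∀ i, A i x = 0) →
      (∀ x, |v x| ≤ ((3 : ℕ) : ℤ) ∧ ∀ i, |A i x| ≤ ((3 : ℕ) : ℤ)) →
      (∃ e : ι → ℤ, ∀ x, (m : ℤ) ∣ (∑ i, e i * A i x) - v x) →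
      ∃ lam : ι → ℤ, (∀ i, |lam i| ≤ L) ∧ ∀ x, ∑ i, lam i * A i x = v x)
    {H S ι : Type} [Group H] [Fintype ι] (hι : Fintype.card ι ≤ K) (φ : S → H) (C : Subgroup H)
    (k : ι → H) (a b p : ι → S) (g : S) (e : ι → ℤ)
    (he : ∀ (y : H) (s : S), (m : ℤ) ∣ (∑ i, e i * rel C φ y s (k i) (a i) (b i) (p i)) -
      ind C y s 1 g) :
    ∃ lam : ι → ℤ, (∀ i, |lam i| ≤ L) ∧
      ∀ (x : H) (s : S), ∑ i, lam i * rel C φ x s (k i) (a i) (b i) (p i) = ind C x s 1 g := by
  classical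
  let Y0 : Finset (H × S) := {(1, g)} ∪ (Finset.univ.image (fun i => (k i, a i)) ∪
    (Finset.univ.image (fun i => (k i * φ (a i), b i)) ∪
      Finset.univ.image (fun i => (k i * φ (a i) * φ (b i) * (φ (p i))⁻¹, p i))))
  have hY0 : Y0.card ≤ 3 * K + 1 := by
    have e1 : (Finset.univ.image (fun i => (k i, a i))).card ≤ K :=
      Finset.card_image_le.trans (by rwa [Finset.card_univ])
    have e2 : (Finset.univ.image (fun i => (k i * φ (a i), b i))).card ≤ K :=
      Finset.card_image_le.trans (by rwa [Finset.card_univ])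
    have e3 : (Finset.univ.image (fun i => (k i * φ (a i) * φ (b i) * (φ (p i))⁻¹, p i))).card ≤ K :=
      Finset.card_image_le.trans (by rwa [Finset.card_univ])
    have e4 : ({(1, g)} : Finset (H × S)).card = 1 := Finset.card_singleton _
    have u1 := Finset.card_union_le ({(1, g)} : Finset (H × S))
      (Finset.univ.image (fun i => (k i, a i)) ∪
      (Finset.univ.image (fun i => (k i * φ (a i), b i)) ∪
      Finset.univ.image (fun i => (k i * φ (a i) * φ (b i) * (φ (p i))⁻¹, p i))))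
    have u2 := Finset.card_union_le (Finset.univ.image (fun i => (k i, a i)))
      (Finset.univ.image (fun i => (k i * φ (a i), b i)) ∪
      Finset.univ.image (fun i => (k i * φ (a i) * φ (b i) * (φ (p i))⁻¹, p i)))
    have u3 := Finset.card_union_le (Finset.univ.image (fun i => (k i * φ (a i), b i)))
      (Finset.univ.image (fun i => (k i * φ (a i) * φ (b i) * (φ (p i))⁻¹, p i)))
    change ({(1, g)} ∪ (Finset.univ.image (fun i => (k i, a i)) ∪
      (Finset.univ.image (fun i => (k i * φ (a i), b i)) ∪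
      Finset.univ.image (fun i => (k i * φ (a i) * φ (b i) * (φ (p i))⁻¹, p i)))) :
      Finset (H × S)).card ≤ _
    omega
  have m0 : ((1 : H), g) ∈ Y0 := by simp [Y0]
  have m1 : ∀ i, (k i, a i) ∈ Y0 := fun i => by
    refine Finset.mem_union_right _ (Finset.mem_union_left _ ?_)
    exact Finset.mem_image_of_mem _ (Finset.mem_univ i)
  have m2 : ∀ i, (k i * φ (a i), b i) ∈ Y0 := fun i => by
    refine Finset.mem_union_right _ (Finset.mem_union_right _ (Finset.mem_union_left _ ?_))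
    exact Finset.mem_image_of_mem (fun i => (k i * φ (a i), b i)) (Finset.mem_univ i)
  have m3 : ∀ i, (k i * φ (a i) * φ (b i) * (φ (p i))⁻¹, p i) ∈ Y0 := fun i => by
    refine Finset.mem_union_right _ (Finset.mem_union_right _ (Finset.mem_union_right _ ?_))
    exact Finset.mem_image_of_mem (fun i => (k i * φ (a i) * φ (b i) * (φ (p i))⁻¹, p i))
      (Finset.mem_univ i)
  obtain ⟨lam, hL, hlam⟩ := hLIN ι {z // z ∈ Y0} hι
    (fun i z => rel C φ z.1.1 z.1.2 (k i) (a i) (b i) (p i)) (fun z => ind C z.1.1 z.1.2 1 g)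
    Finset.univ (by rw [Finset.card_univ, Fintype.card_coe]; exact hY0)
    (fun x hx => absurd (Finset.mem_univ x) hx)
    (fun x => by
      refine ⟨?_, fun i => ?_⟩
      · have h := ind_01 C x.1.1 x.1.2 1 g
        rw [abs_le]
        push_cast
        constructor <;> linarith
      · have h := ind_01 C x.1.1 x.1.2 (k i) (a i)
        have h' := ind_01 C x.1.1 x.1.2 (k i * φ (a i)) (b i)
        have h'' := ind_01 C x.1.1 x.1.2 (k i * φ (a i) * φ (b i) * (φ (p i))⁻¹) (p i)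
        unfold rel
        rw [abs_le]
        push_cast
        constructor <;> linarith)
    ⟨e, fun z => he z.1.1 z.1.2⟩
  refine ⟨lam, hL, fun x s => ?_⟩
  by_cases hx : ∃ z ∈ Y0, z.2 = s ∧ z.1 * x⁻¹ ∈ C
  · obtain ⟨⟨y, s'⟩, hy, hs, hyx⟩ := hx
    change s' = s at hs
    change y * x⁻¹ ∈ C at hyx
    subst hs
    have h := hlam ⟨(y, s'), hy⟩
    change ∑ i, lam i * rel C φ y s' (k i) (a i) (b i) (p i) = ind C y s' 1 g at h
    rw [ind_congr C x y s' hyx, ← h]
    refine Finset.sum_congr rfl fun i _ => ?_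
    unfold rel
    rw [ind_congr C x y s' hyx, ind_congr C x y s' hyx, ind_congr C x y s' hyx]
  · push Not at hx
    rw [ind_zero C x s 1 g fun h => hx _ m0 h.1 h.2]
    refine Finset.sum_eq_zero fun i _ => ?_
    unfold rel
    rw [ind_zero C x s _ _ fun h => hx _ (m1 i) h.1 h.2,
      ind_zero C x s _ _ fun h => hx _ (m2 i) h.1 h.2,
      ind_zero C x s _ _ fun h => hx _ (m3 i) h.1 h.2]
    ring

theorem t_C3 : N894.WF.LeafC3 := by
  classical
  intro hLIN hC1 hC2 hNS G _ hWS F K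
  let F' : Finset G := F ∪ Finset.image₂ (· * ·) F F
  have hF : ∀ g ∈ F, g ∈ F' := fun g hg => Finset.mem_union_left _ hg
  have hFF : ∀ g ∈ F, ∀ h ∈ F, g * h ∈ F' := fun g hg h hh =>
    Finset.mem_union_right _ (Finset.mem_image₂_of_mem hg hh)
  obtain ⟨f, hf⟩ := hNS K
  obtain ⟨m, L, hm, hlin⟩ := hLIN K (3 * K + 1) 3
  have hε : (0 : ℝ) < 1 / (2 * (f + K * L + 1)) := by positivity
  set ε : ℝ := 1 / (2 * (f + K * L + 1)) with hεd
  have hsmall : ((f : ℝ) + K * L) * ε < 1 := by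
    rw [hεd, mul_one_div, div_lt_one (by positivity)]
    have : (0 : ℝ) ≤ f + K * L := by positivity
    linarith
  obtain ⟨H, iH, iHf, d, φ, d0, dsymm, dtri, dr, dl, hφ1, hφ2⟩ := hWS F' ε hε
  -- the length function
  let ell : H → ℝ := fun h => d h 1
  have l1 : ell 1 = 0 := (d0 1 1).2 rfl
  have lmul : ∀ a b, ell (a * b) ≤ ell a + ell b := by
    intro a b
    have h1 := dtri (a * b) b 1
    have h2 := dl b a 1
    rw [one_mul] at h2
    change d (a * b) 1 ≤ d a 1 + d b 1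
    linarith
  have linv : ∀ a, ell a⁻¹ = ell a := by
    intro a
    have h1 := dr a a⁻¹ 1
    rw [mul_inv_cancel, mul_one] at h1
    change d a⁻¹ 1 = d a 1
    rw [← h1, dsymm]
  have lconj : ∀ x a, ell (x * a * x⁻¹) = ell a := by
    intro x a
    have h1 := dl x⁻¹ (x * a) x
    rw [mul_inv_cancel] at h1
    have h2 := dr x a 1
    rw [mul_one] at h2
    change d (x * a * x⁻¹) 1 = d a 1
    rw [h1, h2]
  have lnn : ∀ a, 0 ≤ ell a := by
    intro a
    have h1 := dtri a 1 a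
    rw [(d0 a a).2 rfl, dsymm 1 a] at h1
    change 0 ≤ d a 1
    linarith
  have lerr : ∀ g ∈ F, ∀ h ∈ F, ell (φ g * φ h * (φ (g * h))⁻¹) ≤ ε := by
    intro g hg h hh
    have h1 := hφ1 g (hF g hg) h (hF h hh) (hFF g hg h hh)
    have h2 := dl (φ (g * h))⁻¹ (φ g * φ h) (φ (g * h))
    rw [mul_inv_cancel] at h2
    change d (φ g * φ h * (φ (g * h))⁻¹) 1 ≤ ε
    rw [h2, dsymm]
    exact h1
  obtain ⟨P, iP, iPf, π, ψ, hπ, hψ⟩ := hC2 H {x // x ∈ F'} (fun s => φ s.1) m hm
  refine ⟨P, iP, iPf, fun g => if h : g ∈ F' then ψ ⟨g, h⟩ else 1, fun T hT hErr g hg hg1 hmem => ?_⟩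
  have hΨ : ∀ (g : G) (h : g ∈ F'), (if h : g ∈ F' then ψ ⟨g, h⟩ else 1) = ψ ⟨g, h⟩ :=
    fun g h => dif_pos h
  have hErr' : ∀ t : {t // t ∈ T}, ∃ x : P, ∃ g, ∃ _ : g ∈ F, ∃ h, ∃ _ : h ∈ F,
      t.1 = x * ((if h : g ∈ F' then ψ ⟨g, h⟩ else 1) * (if h' : h ∈ F' then ψ ⟨h, h'⟩ else 1) *
        (if h' : g * h ∈ F' then ψ ⟨g * h, h'⟩ else 1)⁻¹) * x⁻¹ := by
    intro t
    obtain ⟨x, g, hg, h, hh, e⟩ := hErr t.1 t.2
    exact ⟨x, g, hg, h, hh, e⟩
  choose x a ha b hb hab using hErr'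
  let sa : {t // t ∈ T} → {x // x ∈ F'} := fun t => ⟨a t, hF _ (ha t)⟩
  let sb : {t // t ∈ T} → {x // x ∈ F'} := fun t => ⟨b t, hF _ (hb t)⟩
  let sp : {t // t ∈ T} → {x // x ∈ F'} := fun t => ⟨a t * b t, hFF _ (ha t) _ (hb t)⟩
  have hts : ∀ t : {t // t ∈ T}, t.1 = x t * (ψ (sa t) * ψ (sb t) * (ψ (sp t))⁻¹) * (x t)⁻¹ := by
    intro t
    have h1 := hab t
    rw [hΨ _ (hF _ (ha t)), hΨ _ (hF _ (hb t)), hΨ _ (hFF _ (ha t) _ (hb t))] at h1
    exact h1
  have hrange : (Set.range fun t => x t * (ψ (sa t) * ψ (sb t) * (ψ (sp t))⁻¹) * (x t)⁻¹) =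
      (T : Set P) := by
    ext z
    constructor
    · rintro ⟨t, rfl⟩
      change x t * (ψ (sa t) * ψ (sb t) * (ψ (sp t))⁻¹) * (x t)⁻¹ ∈ (T : Set P)
      rw [← hts t]
      exact t.2
    · intro hz
      exact ⟨⟨z, hz⟩, (hts ⟨z, hz⟩).symm⟩
  have hmem' : ψ ⟨g, hF g hg⟩ ∈ Subgroup.closure
      (Set.range fun t => x t * (ψ (sa t) * ψ (sb t) * (ψ (sp t))⁻¹) * (x t)⁻¹) := by
    rw [hrange, ← hΨ g (hF g hg)]
    exact hmem
  obtain ⟨e, he⟩ := hψ {t // t ∈ T} x sa sb sp ⟨g, hF g hg⟩ hmem'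
  set c : {t // t ∈ T} → H := fun t =>
    π (x t) * (φ (sa t).1 * φ (sb t).1 * (φ (sp t).1)⁻¹) * (π (x t))⁻¹ with hcd
  set C : Subgroup H := Subgroup.closure (Set.range c) with hCd
  have hcard : Fintype.card {t // t ∈ T} ≤ K := by
    rw [Fintype.card_coe]
    exact hT
  obtain ⟨lam, hlamL, hlam⟩ := exact_id K m L hlin hcard (fun s : {x // x ∈ F'} => φ s.1) C
    (fun t => π (x t)) sa sb sp ⟨g, hF g hg⟩ e he
  have hc : ∀ t, c t ∈ C := fun t => Subgroup.subset_closure ⟨t, rfl⟩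
  have hgC : φ g ∈ C := by
    have h1 : π (ψ ⟨g, hF g hg⟩) ∈ (Subgroup.closure (Set.range fun t =>
        x t * (ψ (sa t) * ψ (sb t) * (ψ (sp t))⁻¹) * (x t)⁻¹)).map π :=
      Subgroup.mem_map_of_mem π hmem'
    rw [MonoidHom.map_closure, ← Set.range_comp, hπ] at h1
    have h2 : (⇑π ∘ fun t => x t * (ψ (sa t) * ψ (sb t) * (ψ (sp t))⁻¹) * (x t)⁻¹) = c := by
      funext t
      simp only [Function.comp_apply, map_mul, map_inv, hπ, hcd]
    rw [h2] at h1
    exact h1
  have hα := hC1 H {x // x ∈ F'} (fun s => φ s.1) C (Abelianization C) Abelianization.of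
    {t // t ∈ T} (fun t => π (x t)) sa sb sp ⟨g, hF g hg⟩ lam hc hgC hlam
  -- the ordered product
  let c' : {t // t ∈ T} → C := fun t => ⟨c t, hc t⟩
  let z : C := ((Finset.univ : Finset {t // t ∈ T}).toList.map fun t => c' t ^ lam t).prod
  have hz : Abelianization.of z = ∏ t, Abelianization.of (c' t) ^ lam t := by
    change Abelianization.of ((Finset.univ : Finset {t // t ∈ T}).toList.map
      fun t => c' t ^ lam t).prod = _
    rw [map_list_prod, List.map_map, ← Finset.prod_map_toList]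
    congr 1
  have hbb : (⟨φ g, hgC⟩ : C) * z⁻¹ ∈ commutator C := by
    rw [← Abelianization.ker_of, MonoidHom.mem_ker, map_mul, map_inv, hz, mul_inv_eq_one]
    exact hα
  obtain ⟨l, hl1, hl2, hl3⟩ := hf C inferInstance inferInstance (Finset.univ.image c')
    (Finset.card_image_le.trans (by rwa [Finset.card_univ])) (by
      have h1 := Subgroup.closure_closure_coe_preimage (k := Set.range c)
      rw [← h1]
      congr 1
      ext y
      rw [Finset.coe_image, Finset.coe_univ, Set.image_univ]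
      constructor
      · rintro ⟨t, rfl⟩
        exact ⟨t, rfl⟩
      · rintro ⟨t, ht⟩
        exact ⟨t, Subtype.ext ht⟩) _ hbb
  have hcε : ∀ t, ell (c t) ≤ ε := by
    intro t
    have h1 : ell (c t) = ell (φ (a t) * φ (b t) * (φ (a t * b t))⁻¹) := lconj _ _
    rw [h1]
    exact lerr _ (ha t) _ (hb t)
  have hl4 := list_le (fun y : C => ell y.1) l1 (fun y y' => lmul y.1 y'.1) ε l fun y hy => by
    obtain ⟨t, ht, w, hw⟩ := hl2 y hy
    obtain ⟨i, -, rfl⟩ := Finset.mem_image.1 ht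
    rcases hw with rfl | rfl
    · change ell (w.1 * c i * w.1⁻¹) ≤ ε
      rw [lconj]
      exact hcε i
    · change ell (w.1 * (c i)⁻¹ * w.1⁻¹) ≤ ε
      rw [lconj, linv]
      exact hcε i
  have hz4 := list_le (fun y : C => ell y.1) l1 (fun y y' => lmul y.1 y'.1) (L * ε)
    ((Finset.univ : Finset {t // t ∈ T}).toList.map fun t => c' t ^ lam t) fun y hy => by
    obtain ⟨t, -, rfl⟩ := List.mem_map.1 hy
    have h1 := zpow_le ell l1 lmul linv (c t) (lam t)
    change ell ((c' t ^ lam t : C) : H) ≤ _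
    rw [Subgroup.coe_zpow]
    refine h1.trans ?_
    have h2 : ((|lam t| : ℤ) : ℝ) ≤ L := by exact_mod_cast hlamL t
    exact mul_le_mul h2 (hcε t) (lnn _) (by positivity)
  have hlen : (((Finset.univ : Finset {t // t ∈ T}).toList.map fun t => c' t ^ lam t).length : ℝ) ≤
      K := by
    rw [List.length_map, Finset.length_toList, Finset.card_univ]
    exact_mod_cast hcard
  have hfin : ell (φ g) ≤ (f + K * L) * ε := by
    have h1 : φ g = ((⟨φ g, hgC⟩ * z⁻¹ : C) : H) * (z : H) := by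
      rw [Subgroup.coe_mul, Subgroup.coe_inv, inv_mul_cancel_right]
    have h2 : ell ((⟨φ g, hgC⟩ * z⁻¹ : C) : H) ≤ f * ε := by
      rw [← hl3]
      refine hl4.trans (mul_le_mul_of_nonneg_right ?_ hε.le)
      exact_mod_cast hl1
    have h3 : ell (z : H) ≤ K * (L * ε) :=
      hz4.trans (mul_le_mul_of_nonneg_right hlen (by positivity))
    rw [h1]
    refine (lmul _ _).trans ?_
    calc _ ≤ f * ε + K * (L * ε) := add_le_add h2 h3
      _ = _ := by ring
  have hge := hφ2 g (hF g hg) hg1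
  change 1 ≤ ell (φ g) at hge
  linarith

end Pool.Agent.N999.WF
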