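import Pool.Agent.N795.ST.Stm
import Pool.Agent.TH268.PD.Func
import Pool.Agent.TH268.PD.Count

/-!
# Random stirring (project ST): histories with a split are rare (by helper999)
-/

set_option autoImplicit false
set_option linter.unusedSectionVars false

namespace Pool.Agent.N795.ST

open Finset Equiv
open Pool.Agent.W805.LR (len cnt)
open Pool.Agent.TH268.PD (law mas TT)

namespace PureP

variable {V : Type} [Fintype V] [DecidableEq V]

/-- the allowed pairs -/
def Al (g : Perm V) (U : Finset V) (a b : V) : Prop :=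
  (a ∉ U ∧ b ∉ U) ∨ (a ∈ U ∧ b ∈ U ∧ ¬ g.SameCycle a b)

open Classical in
lemma pw_zero (g : Perm V) (U : Finset V) : pw 0 g U = if cyU g U then 1 else 0 := by
  by_cases h : cyU g U
  · rw [if_pos h]; exact if_pos h
  · rw [if_neg h]; exact if_neg h

open Classical in
lemma pw_succ (i : ℕ) (g : Perm V) (U : Finset V) :
    pw (i + 1) g U = (∑ a, ∑ b, if Al g U a b then pw i (g * swap a b) U else 0) /
      (Fintype.card V : ℝ) ^ 2 := by
  show (∑ a, ∑ b, _) / _ = _
  congr 1
  refine sum_congr rfl fun a _ => sum_congr rfl fun b _ => ?_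
  by_cases h : Al g U a b
  · rw [if_pos h]; exact if_pos h
  · rw [if_neg h]; exact if_neg h

lemma pw_nonneg (i : ℕ) : ∀ (g : Perm V) (U : Finset V), 0 ≤ pw i g U := by
  classical
  induction i with
  | zero =>
    intro g U
    rw [pw_zero]
    split_ifs <;> norm_num
  | succ i ih =>
    intro g U
    rw [pw_succ]
    refine div_nonneg (sum_nonneg fun a _ => sum_nonneg fun b _ => ?_) (by positivity)
    split_ifs
    · exact ih _ _
    · exact le_rfl

/-- sets with positive probability are invariant -/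
lemma pw_inv (i : ℕ) : ∀ (g : Perm V) (U : Finset V), pw i g U ≠ 0 → ∀ v, g v ∈ U ↔ v ∈ U := by
  classical
  induction i with
  | zero =>
    intro g U h v
    rw [pw_zero] at h
    have hc : cyU g U := by
      by_contra hc
      exact h (if_neg hc)
    obtain ⟨w, -, hw⟩ := hc
    rw [hw, hw]
    exact Perm.sameCycle_apply_right
  | succ i ih =>
    intro g U h v
    rw [pw_succ] at h
    have h1 : ∑ a, ∑ b, (if Al g U a b then pw i (g * swap a b) U else 0) ≠ 0 := by
      intro h0
      exact h (by rw [h0, zero_div])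
    obtain ⟨a, -, ha⟩ := exists_ne_zero_of_sum_ne_zero h1
    obtain ⟨b, -, hb⟩ := exists_ne_zero_of_sum_ne_zero ha
    have hAl : Al g U a b := by
      by_contra hc
      exact hb (if_neg hc)
    rw [if_pos hAl] at hb
    have h2 := ih _ _ hb (swap a b v)
    rw [Perm.mul_apply, swap_apply_self] at h2
    rw [h2]
    by_cases hva : v = a
    · rw [hva, swap_apply_left]
      rcases hAl with h | h
      · exact ⟨fun h' => absurd h' h.2, fun h' => absurd h' h.1⟩
      · exact ⟨fun _ => h.1, fun _ => h.2.1⟩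
    · by_cases hvb : v = b
      · rw [hvb, swap_apply_right]
        rcases hAl with h | h
        · exact ⟨fun h' => absurd h' h.1, fun h' => absurd h' h.2⟩
        · exact ⟨fun _ => h.2.1, fun _ => h.1⟩
      · rw [swap_apply_of_ne_of_ne hva hvb]

lemma inv_same {g : Perm V} {U : Finset V} (h : ∀ v, g v ∈ U ↔ v ∈ U) {x y : V}
    (hxy : g.SameCycle x y) : x ∈ U ↔ y ∈ U := by
  obtain ⟨n, hn⟩ := hxy.exists_nat_pow_eq
  rw [← hn]
  clear hn
  induction n with
  | zero => rfl
  | succ n ih =>
    rw [pow_succ', Perm.mul_apply, h]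
    exact ih

lemma len_card (g : Perm V) (v : V) :
    len g v = ((univ.filter fun w => g.SameCycle v w).card : ℝ) := by
  classical
  unfold len
  rw [Pool.Agent.W805.LR.cnt_eq, Finset.sum_boole]

/-- the cycle of `v` as a set is the only cycle that contains `v` -/
lemma cyU_iff (g : Perm V) (v : V) (U : Finset V) :
    (cyU g U ∧ v ∈ U) ↔ U = univ.filter fun w => g.SameCycle v w := by
  constructor
  · rintro ⟨⟨w, -, hw⟩, hv⟩
    ext x
    rw [mem_filter, hw]
    have h1 := (hw v).1 hv
    exact ⟨fun h => ⟨mem_univ _, h1.symm.trans h⟩, fun h => h1.trans h.2⟩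
  · rintro rfl
    have hv : v ∈ univ.filter fun w => g.SameCycle v w := by
      rw [mem_filter]
      exact ⟨mem_univ _, Perm.SameCycle.refl _ _⟩
    refine ⟨⟨v, hv, fun w => ?_⟩, hv⟩
    rw [mem_filter]
    exact ⟨fun h => h.2, fun h => ⟨mem_univ _, h⟩⟩

open Classical in
/-- a sum over the cycles that contain `v` -/
lemma sum_cyU (g : Perm V) (v : V) (F : Finset V → ℝ) :
    ∑ U : Finset V, (if v ∈ U then F U * pw 0 g U else 0) =
      F (univ.filter fun w => g.SameCycle v w) := by
  rw [sum_eq_single (univ.filter fun w => g.SameCycle v w)]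
  · have h := (cyU_iff g v _).2 rfl
    rw [if_pos h.2, pw_zero, if_pos h.1, mul_one]
  · intro U _ hU
    by_cases hv : v ∈ U
    · rw [if_pos hv, pw_zero, if_neg, mul_zero]
      intro hc
      exact hU ((cyU_iff g v U).1 ⟨hc, hv⟩)
    · rw [if_neg hv]
  · intro h
    exact absurd (mem_univ _) h

open Classical in
/-- the sets that contain a given point have total weight at most one -/
lemma pw_le_one [Nonempty V] (i : ℕ) : ∀ (g : Perm V) (v : V),
    ∑ U : Finset V, (if v ∈ U then pw i g U else 0) ≤ 1 := by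
  induction i with
  | zero =>
    intro g v
    have h := sum_cyU g v (fun _ => 1)
    simp only [one_mul] at h
    exact h.le
  | succ i ih =>
    intro g v
    have hn : (0 : ℝ) < (Fintype.card V : ℝ) := by exact_mod_cast Fintype.card_pos
    have h1 : ∀ U : Finset V, (if v ∈ U then pw (i + 1) g U else 0) ≤
        (∑ a, ∑ b, (if v ∈ U then pw i (g * swap a b) U else 0)) / (Fintype.card V : ℝ) ^ 2 := by
      intro U
      by_cases hv : v ∈ U
      · simp only [if_pos hv]
        rw [pw_succ]
        refine div_le_div_of_nonneg_right (sum_le_sum fun a _ => sum_le_sum fun b _ => ?_)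
          (by positivity)
        split_ifs
        · exact le_rfl
        · exact pw_nonneg _ _ _
      · simp only [if_neg hv, sum_const_zero, zero_div, le_refl]
    refine (sum_le_sum fun U _ => h1 U).trans ?_
    rw [← sum_div, div_le_one (by positivity), sum_comm]
    have h2 : ∀ a, ∑ U : Finset V, ∑ b, (if v ∈ U then pw i (g * swap a b) U else 0) ≤
        (Fintype.card V : ℝ) := by
      intro a
      rw [sum_comm]
      refine (sum_le_sum fun b _ => ih (g * swap a b) v).trans ?_
      rw [sum_const, card_univ, nsmul_eq_mul, mul_one]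
    refine (sum_le_sum fun a _ => h2 a).trans ?_
    rw [sum_const, card_univ, nsmul_eq_mul, sq]

lemma TT_mono {F G : Perm V → ℝ} (h : ∀ g, F g ≤ G g) (g : Perm V) : TT F g ≤ TT G g := by
  unfold TT
  exact div_le_div_of_nonneg_right (sum_le_sum fun a _ => sum_le_sum fun b _ => h _)
    (by positivity)

/-- the main part -/
noncomputable def Psi (f : ℝ → ℝ) (i : ℕ) (g : Perm V) : ℝ :=
  (∑ U : Finset V, (U.card : ℝ) * f U.card * pw i g U) / Fintype.card V

lemma Psi_zero (f : ℝ → ℝ) (g : Perm V) :
    (∑ v, f (len g v)) / Fintype.card V = Psi f 0 g := by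
  classical
  unfold Psi
  congr 1
  have h1 : ∀ v, f (len g v) = ∑ U : Finset V, (if v ∈ U then f U.card * pw 0 g U else 0) := by
    intro v
    rw [sum_cyU g v fun U => f U.card, len_card]
  rw [sum_congr rfl fun v _ => h1 v, sum_comm]
  refine sum_congr rfl fun U _ => ?_
  rw [← sum_filter, sum_const, nsmul_eq_mul, mul_assoc]
  congr 2
  have : univ.filter (fun v => v ∈ U) = U := by
    ext v
    rw [mem_filter]
    exact ⟨fun h => h.2, fun h => ⟨mem_univ _, h⟩⟩
  rw [this]

/-- points cut off with a short cycle -/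
lemma few_cut {K : ℝ} (hK : 0 ≤ K) (g : Perm V) (b : V) :
    ∑ a, (open Classical in if g.SameCycle a b ∧ len (g * swap a b) a ≤ K then (1 : ℝ) else 0) ≤
      K := by
  classical
  have h1 : ∀ a, (if g.SameCycle a b ∧ len (g * swap a b) a ≤ K then (1 : ℝ) else 0) ≤
      if a ∈ (Icc 1 ⌊K⌋₊).image (fun p => (g ^ p) b) then 1 else 0 := by
    intro a
    by_cases h : g.SameCycle a b ∧ len (g * swap a b) a ≤ K
    · rw [if_pos h, if_pos]
      rw [mem_image]
      refine ⟨Function.minimalPeriod (g * swap a b) a, ?_, ?_⟩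
      · rw [mem_Icc]
        refine ⟨Pool.Agent.TH268.PD.Func.per_pos _ _, Nat.le_floor ?_⟩
        rw [← Pool.Agent.TH268.PD.Func.len_eq_per]
        exact h.2
      · by_cases hab : a = b
        · subst hab
          rw [swap_self]
          exact Pool.Agent.TH268.PD.Func.pow_per g a
        · exact Pool.Agent.TH268.PD.Func.split_pow
            (Pool.Agent.TH268.PD.Drift.not_same g a b hab h.1)
    · rw [if_neg h]
      split_ifs <;> norm_num
  refine (sum_le_sum fun a _ => ?_).trans ((sum_le_sum fun a _ => h1 a).trans ?_)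
  · by_cases h : g.SameCycle a b ∧ len (g * swap a b) a ≤ K
    · rw [if_pos h]
    · rw [if_neg h]
  · rw [Finset.sum_boole]
    have h2 : univ.filter (fun a => a ∈ (Icc 1 ⌊K⌋₊).image (fun p => (g ^ p) b)) =
        (Icc 1 ⌊K⌋₊).image (fun p => (g ^ p) b) := by
      ext v
      rw [mem_filter]
      exact ⟨fun h => h.2, fun h => ⟨mem_univ _, h⟩⟩
    rw [h2]
    have h3 : ((Icc 1 ⌊K⌋₊).image (fun p => (g ^ p) b)).card ≤ ⌊K⌋₊ := by
      refine card_image_le.trans ?_
      rw [Nat.card_Icc, Nat.add_sub_cancel]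
    calc (((Icc 1 ⌊K⌋₊).image (fun p => (g ^ p) b)).card : ℝ) ≤ (⌊K⌋₊ : ℝ) := by exact_mod_cast h3
      _ ≤ K := Nat.floor_le hK

open Classical in
/-- the error of one pair -/
lemma err_pair [Nonempty V] {f : ℝ → ℝ} {K : ℝ} (f0 : ∀ x, 0 ≤ f x) (f1 : ∀ x, f x ≤ 1)
    (hK : 0 ≤ K) (fK : ∀ x, K < x → f x = 0) (i : ℕ) (g : Perm V) (a b : V) :
    ∑ U : Finset V, (if Al g U a b then 0 else
        (U.card : ℝ) * f U.card * pw i (g * swap a b) U) ≤
      K * ((if g.SameCycle a b ∧ len (g * swap a b) a ≤ K then (1 : ℝ) else 0) +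
        (if g.SameCycle b a ∧ len (g * swap b a) b ≤ K then (1 : ℝ) else 0)) := by
  obtain ⟨h, hh⟩ : ∃ h, h = g * swap a b := ⟨_, rfl⟩
  have hba : g * swap b a = h := by rw [swap_comm, hh]
  have hg : h * swap a b = g := by rw [hh, mul_assoc, swap_mul_self, mul_one]
  rw [hba, ← hh]
  obtain ⟨x, hx⟩ : ∃ x : ℝ, x = if g.SameCycle a b ∧ len h a ≤ K then (1 : ℝ) else 0 := ⟨_, rfl⟩
  obtain ⟨y, hy⟩ : ∃ y : ℝ, y = if g.SameCycle b a ∧ len h b ≤ K then (1 : ℝ) else 0 := ⟨_, rfl⟩
  rw [← hx, ← hy]
  have hx0 : 0 ≤ x := by rw [hx]; split_ifs <;> norm_num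
  have hy0 : 0 ≤ y := by rw [hy]; split_ifs <;> norm_num
  have key : ∀ U : Finset V, (if Al g U a b then 0 else (U.card : ℝ) * f U.card * pw i h U) ≤
      K * (x * (if a ∈ U then pw i h U else 0) + y * (if b ∈ U then pw i h U else 0)) := by
    intro U
    have hp := pw_nonneg i h U
    have hr : 0 ≤ K * (x * (if a ∈ U then pw i h U else 0) +
        y * (if b ∈ U then pw i h U else 0)) := by
      refine mul_nonneg hK (add_nonneg (mul_nonneg hx0 ?_) (mul_nonneg hy0 ?_))
      · split_ifs <;> [exact hp; exact le_rfl]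
      · split_ifs <;> [exact hp; exact le_rfl]
    by_cases hA : Al g U a b
    · rw [if_pos hA]; exact hr
    rw [if_neg hA]
    by_cases hp0 : pw i h U = 0
    · rw [hp0, mul_zero]
      rw [hp0] at hr
      exact hr
    by_cases hUK : K < (U.card : ℝ)
    · rw [fK _ hUK, mul_zero, zero_mul]; exact hr
    push Not at hUK
    have hinv := pw_inv i h U hp0
    have hle : (U.card : ℝ) * f U.card * pw i h U ≤ K * pw i h U := by
      refine mul_le_mul_of_nonneg_right ?_ hp
      calc (U.card : ℝ) * f U.card ≤ (U.card : ℝ) * 1 :=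
            mul_le_mul_of_nonneg_left (f1 _) (Nat.cast_nonneg _)
        _ ≤ K := by rw [mul_one]; exact hUK
    have hlen : ∀ v ∈ U, len h v ≤ K := by
      intro v hv
      rw [len_card]
      refine le_trans ?_ hUK
      have : (univ.filter fun w => h.SameCycle v w) ⊆ U := by
        intro w hw
        rw [mem_filter] at hw
        exact (inv_same hinv hw.2).1 hv
      exact_mod_cast card_le_card this
    have hS : g.SameCycle a b := by
      by_contra hS
      apply hA
      unfold Al
      by_cases haU : a ∈ U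
      · by_cases hbU : b ∈ U
        · exact Or.inr ⟨haU, hbU, hS⟩
        · exfalso
          apply hS
          have h1 : ¬ h.SameCycle a b := fun h' => hbU ((inv_same hinv h').1 haU)
          have h2 := Pool.Agent.TH268.PD.Count.joined h a b h1
          rwa [hg] at h2
      · by_cases hbU : b ∈ U
        · exfalso
          apply hS
          have h1 : ¬ h.SameCycle a b := fun h' => haU ((inv_same hinv h').2 hbU)
          have h2 := Pool.Agent.TH268.PD.Count.joined h a b h1
          rwa [hg] at h2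
        · exact Or.inl ⟨haU, hbU⟩
    by_cases haU : a ∈ U
    · have hx1 : x = 1 := by rw [hx, if_pos ⟨hS, hlen a haU⟩]
      rw [if_pos haU, hx1, one_mul]
      refine hle.trans (mul_le_mul_of_nonneg_left ?_ hK)
      have : 0 ≤ y * (if b ∈ U then pw i h U else 0) := by
        refine mul_nonneg hy0 ?_
        split_ifs <;> [exact hp; exact le_rfl]
      linarith
    · have hbU : b ∈ U := by
        by_contra hbU
        exact hA (Or.inl ⟨haU, hbU⟩)
      have hy1 : y = 1 := by rw [hy, if_pos ⟨hS.symm, hlen b hbU⟩]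
      rw [if_neg haU, if_pos hbU, hy1, one_mul, mul_zero, zero_add]
      exact hle
  refine (sum_le_sum fun U _ => key U).trans ?_
  rw [← mul_sum, sum_add_distrib, ← mul_sum, ← mul_sum]
  refine mul_le_mul_of_nonneg_left (add_le_add ?_ ?_) hK
  · exact mul_le_of_le_one_right hx0 (pw_le_one i h a)
  · exact mul_le_of_le_one_right hy0 (pw_le_one i h b)

open Classical in
/-- one step -/
lemma step [Nonempty V] {f : ℝ → ℝ} {K : ℝ} (f0 : ∀ x, 0 ≤ f x) (f1 : ∀ x, f x ≤ 1)
    (hK : 0 ≤ K) (fK : ∀ x, K < x → f x = 0) (i : ℕ) (g : Perm V) :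
    TT (Psi f i) g ≤ Psi f (i + 1) g + 2 * K ^ 2 / (Fintype.card V : ℝ) ^ 2 := by
  obtain ⟨n, hn⟩ : ∃ n : ℝ, n = Fintype.card V := ⟨_, rfl⟩
  have hn0 : 0 < n := by rw [hn]; exact_mod_cast Fintype.card_pos
  -- the pairs
  have e1 : TT (Psi f i) g = (∑ a, ∑ b, ∑ U : Finset V,
      (U.card : ℝ) * f U.card * pw i (g * swap a b) U) / n ^ 3 := by
    unfold TT Psi
    rw [← hn]
    have : ∀ a b, (∑ U : Finset V, (U.card : ℝ) * f U.card * pw i (g * swap a b) U) / n =
        (∑ U : Finset V, (U.card : ℝ) * f U.card * pw i (g * swap a b) U) * n⁻¹ :=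
      fun a b => div_eq_mul_inv _ _
    simp only [this]
    simp only [← sum_mul]
    field_simp
  have e2 : Psi f (i + 1) g = (∑ a, ∑ b, ∑ U : Finset V,
      (if Al g U a b then (U.card : ℝ) * f U.card * pw i (g * swap a b) U else 0)) / n ^ 3 := by
    unfold Psi
    rw [← hn]
    have h1 : ∀ U : Finset V, (U.card : ℝ) * f U.card * pw (i + 1) g U =
        (∑ a, ∑ b, (if Al g U a b then (U.card : ℝ) * f U.card * pw i (g * swap a b) U else 0)) *
          (n ^ 2)⁻¹ := by
      intro U
      rw [pw_succ, ← hn, div_eq_mul_inv, ← mul_assoc, mul_sum]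
      congr 1
      refine sum_congr rfl fun a _ => ?_
      rw [mul_sum]
      refine sum_congr rfl fun b _ => ?_
      split_ifs
      · rfl
      · rw [mul_zero]
    rw [sum_congr rfl fun U _ => h1 U, ← sum_mul, sum_comm]
    have h2 : ∀ a, ∑ U : Finset V, ∑ b,
        (if Al g U a b then (U.card : ℝ) * f U.card * pw i (g * swap a b) U else 0) =
        ∑ b, ∑ U : Finset V,
        (if Al g U a b then (U.card : ℝ) * f U.card * pw i (g * swap a b) U else 0) :=
      fun a => sum_comm
    rw [sum_congr rfl fun a _ => h2 a]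
    field_simp
  have e3 : ∑ a, ∑ b, ∑ U : Finset V, (U.card : ℝ) * f U.card * pw i (g * swap a b) U ≤
      (∑ a, ∑ b, ∑ U : Finset V,
        (if Al g U a b then (U.card : ℝ) * f U.card * pw i (g * swap a b) U else 0)) +
      ∑ a, ∑ b, K * ((if g.SameCycle a b ∧ len (g * swap a b) a ≤ K then (1 : ℝ) else 0) +
        (if g.SameCycle b a ∧ len (g * swap b a) b ≤ K then (1 : ℝ) else 0)) := by
    rw [← sum_add_distrib]
    refine sum_le_sum fun a _ => ?_
    rw [← sum_add_distrib]
    refine sum_le_sum fun b _ => ?_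
    have h1 : ∑ U : Finset V, (U.card : ℝ) * f U.card * pw i (g * swap a b) U =
        ∑ U : Finset V, (if Al g U a b then (U.card : ℝ) * f U.card * pw i (g * swap a b) U
          else 0) + ∑ U : Finset V, (if Al g U a b then 0 else
            (U.card : ℝ) * f U.card * pw i (g * swap a b) U) := by
      rw [← sum_add_distrib]
      refine sum_congr rfl fun U _ => ?_
      split_ifs
      · rw [add_zero]
      · rw [zero_add]
    rw [h1]
    exact add_le_add le_rfl (err_pair f0 f1 hK fK i g a b)
  have e4 : ∑ a, ∑ b, K * ((if g.SameCycle a b ∧ len (g * swap a b) a ≤ K then (1 : ℝ) else 0) +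
        (if g.SameCycle b a ∧ len (g * swap b a) b ≤ K then (1 : ℝ) else 0)) ≤ 2 * K ^ 2 * n := by
    simp only [mul_add, sum_add_distrib, ← mul_sum]
    have h1 : ∑ a, ∑ b, (if g.SameCycle a b ∧ len (g * swap a b) a ≤ K then (1 : ℝ) else 0) ≤
        n * K := by
      rw [sum_comm]
      refine (sum_le_sum fun b _ => few_cut hK g b).trans ?_
      rw [sum_const, card_univ, nsmul_eq_mul, hn]
    have h2 : ∑ a, ∑ b, (if g.SameCycle b a ∧ len (g * swap b a) b ≤ K then (1 : ℝ) else 0) ≤
        n * K := by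
      refine (sum_le_sum fun b _ => few_cut hK g b).trans ?_
      rw [sum_const, card_univ, nsmul_eq_mul, hn]
    have h3 := mul_le_mul_of_nonneg_left h1 hK
    have h4 := mul_le_mul_of_nonneg_left h2 hK
    nlinarith
  rw [e1, e2, ← hn]
  have e5 : 2 * K ^ 2 / n ^ 2 = 2 * K ^ 2 * n / n ^ 3 := by
    field_simp
  rw [e5, ← add_div]
  exact div_le_div_of_nonneg_right (e3.trans (add_le_add le_rfl e4)) (by positivity)

lemma TT_add_const [Nonempty V] (F : Perm V → ℝ) (c : ℝ) (g : Perm V) :
    TT (fun h => F h + c) g = TT F g + c := by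
  unfold TT
  have hn0 : (Fintype.card V : ℝ) ≠ 0 := by exact_mod_cast Fintype.card_ne_zero
  simp only [sum_add_distrib, sum_const, card_univ, nsmul_eq_mul]
  field_simp

end PureP

open PureP in
/-- only few points are in a short cycle whose history contains a split -/
theorem pure : Pure := by
  intro V _ _ _ f K f0 f1 hK fK i
  induction i with
  | zero =>
    intro g
    rw [Function.iterate_zero, id, Nat.cast_zero, zero_mul, add_zero]
    exact (Psi_zero f g).le
  | succ i ih =>
    intro g
    rw [Function.iterate_succ_apply']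
    refine (TT_mono (G := fun g => Psi f i g +
      i * (2 * K ^ 2 / (Fintype.card V : ℝ) ^ 2)) (fun g => ih g) g).trans ?_
    rw [TT_add_const]
    have h1 := step f0 f1 hK fK i g
    have h2 : ((i + 1 : ℕ) : ℝ) * (2 * K ^ 2 / (Fintype.card V : ℝ) ^ 2) =
        2 * K ^ 2 / (Fintype.card V : ℝ) ^ 2 + i * (2 * K ^ 2 / (Fintype.card V : ℝ) ^ 2) := by
      push_cast
      ring
    rw [h2, ← add_assoc]
    exact add_le_add h1 le_rfl

end Pool.Agent.N795.ST
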