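import Pool.Agent.N804.PV.Stm
import Pool.Agent.N804.Glue
import Pool.Agent.Y749.Rig.RHb
import Pool.Agent.Y21.FW.Zeros

/-!
Project PV (helper804): Montgomery's theorem for smooth test functions (S_MO, by helper999).
-/

set_option autoImplicit false

namespace Pool.Agent.N999.PVMO

open Filter Topology Set MeasureTheory Complex
open Pool.Agent.N804 (SC CT)
open Pool.Agent.Y749.Rig (FL fl Adm)

lemma deriv_zero {h : ℝ → ℝ} {κ : ℝ} (hs : ∀ α, κ < |α| → h α = 0) (α : ℝ) (hα : κ < |α|) :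
    deriv h α = 0 := by
  have h1 : h =ᶠ[𝓝 α] fun _ => 0 := by
    have h2 : IsOpen {β : ℝ | κ < |β|} := isOpen_lt continuous_const continuous_abs
    filter_upwards [h2.mem_nhds hα] with β hβ
    exact hs β hβ
  rw [h1.deriv_eq, deriv_const]

lemma FL_bd {h : ℝ → ℝ} (H : SC h) {κ : ℝ} (hs : ∀ α, κ < |α| → h α = 0) :
    ∃ A : ℝ, 0 ≤ A ∧ ∀ x y : ℝ, ‖FL h (x + y * I)‖ ≤ A * Real.exp (2 * Real.pi * κ * |y|) := by
  refine ⟨∫ α : ℝ, |h α|, integral_nonneg fun _ => abs_nonneg _, fun x y => ?_⟩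
  unfold FL
  rw [← integral_mul_const]
  refine norm_integral_le_of_norm_le
    ((H.cont.integrable_of_hasCompactSupport H.cs).abs.mul_const _) (ae_of_all _ fun α => ?_)
  rw [norm_mul, Complex.norm_real, Real.norm_eq_abs, Complex.norm_exp]
  by_cases h0 : κ < |α|
  · rw [hs α h0]
    simp
  · push Not at h0
    refine mul_le_mul_of_nonneg_left (Real.exp_le_exp.2 ?_) (abs_nonneg _)
    have e : (2 * Real.pi * I * α * (x + y * I) : ℂ) =
        ((-(2 * Real.pi * α * y) : ℝ) : ℂ) + ((2 * Real.pi * α * x : ℝ) : ℂ) * I := by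
      push_cast
      linear_combination (2 * Real.pi * α * y : ℂ) * I_mul_I
    rw [e]
    simp only [add_re, ofReal_re, mul_re, I_re, mul_zero, ofReal_im, I_im, mul_one, sub_self,
      add_zero]
    have h1 : -(α * y) ≤ κ * |y| := by
      calc -(α * y) ≤ |α * y| := neg_le_abs _
        _ = |α| * |y| := abs_mul _ _
        _ ≤ κ * |y| := mul_le_mul_of_nonneg_right h0 (abs_nonneg _)
    have hpi := Real.pi_pos
    nlinarith

lemma FL_deriv {h : ℝ → ℝ} (H : SC h) (z : ℂ) :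
    FL (deriv h) z = -(2 * Real.pi * I * z) * FL h z := by
  have hv : ∀ α : ℝ, HasDerivAt (fun α : ℝ => Complex.exp (2 * Real.pi * I * α * z))
      ((2 * Real.pi * I * z) * Complex.exp (2 * Real.pi * I * α * z)) α := by
    intro α
    have h1 : HasDerivAt (fun α : ℝ => (2 * Real.pi * I * α * z : ℂ)) (2 * Real.pi * I * z) α := by
      have h2 : HasDerivAt (fun α : ℝ => (α : ℂ)) 1 α := ofRealCLM.hasDerivAt
      have := (h2.const_mul (2 * Real.pi * I : ℂ)).mul_const z
      simpa using this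
    convert h1.cexp using 1
    ring
  have hu : ∀ α : ℝ, HasDerivAt (fun α : ℝ => ((h α : ℝ) : ℂ)) ((deriv h α : ℝ) : ℂ) α :=
    fun α => (H.diff α).hasDerivAt.ofReal_comp
  have hce : Continuous fun α : ℝ => Complex.exp (2 * Real.pi * I * α * z) := by fun_prop
  have ii : ∀ g : ℝ → ℝ, SC g → Integrable (fun α : ℝ =>
      ((g α : ℝ) : ℂ) * Complex.exp (2 * Real.pi * I * α * z)) := by
    intro g G
    have c1 : Continuous fun α : ℝ => ((g α : ℝ) : ℂ) := continuous_ofReal.comp G.cont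
    have c2 : HasCompactSupport fun α : ℝ => ((g α : ℝ) : ℂ) :=
      G.cs.comp_left (g := fun t : ℝ => (t : ℂ)) (by simp)
    exact (c1.mul hce).integrable_of_hasCompactSupport c2.mul_right
  have i1 : Integrable (fun α : ℝ => ((h α : ℝ) : ℂ) * ((2 * Real.pi * I * z) *
      Complex.exp (2 * Real.pi * I * α * z))) := by
    have := (ii h H).const_mul (2 * Real.pi * I * z)
    refine this.congr (ae_of_all _ fun α => ?_)
    ring
  have e := integral_mul_deriv_eq_deriv_mul_of_integrable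
    (u := fun α : ℝ => ((h α : ℝ) : ℂ)) (u' := fun α : ℝ => ((deriv h α : ℝ) : ℂ))
    (v := fun α : ℝ => Complex.exp (2 * Real.pi * I * α * z))
    (v' := fun α : ℝ => (2 * Real.pi * I * z) * Complex.exp (2 * Real.pi * I * α * z))
    (fun α _ => hu α) (fun α _ => hv α) i1 (ii _ H.deriv) (ii h H)
  unfold FL
  have e2 : ∫ α : ℝ, ((h α : ℝ) : ℂ) * ((2 * Real.pi * I * z) *
      Complex.exp (2 * Real.pi * I * α * z)) =
      (2 * Real.pi * I * z) * ∫ α : ℝ, ((h α : ℝ) : ℂ) *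
        Complex.exp (2 * Real.pi * I * α * z) := by
    rw [← integral_const_mul]
    congr 1
    funext α
    ring
  rw [e2] at e
  linear_combination e

theorem adm {h : ℝ → ℝ} (H : SC h) {κ : ℝ} (he : ∀ x, h (-x) = h x)
    (hs : ∀ α, κ ≤ |α| → h α = 0) : Adm κ h := by
  have hs1 : ∀ α, κ < |α| → h α = 0 := fun α hα => hs α hα.le
  have hs2 : ∀ α, κ < |α| → deriv (deriv h) α = 0 :=
    deriv_zero (deriv_zero hs1)
  refine ⟨he, ?_, hs, ?_⟩
  · obtain ⟨K, hK⟩ := H.sm.lipschitzWith_of_hasCompactSupport H.cs (by simp)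
    refine ⟨K, fun x y => ?_⟩
    have := hK.dist_le_mul x y
    rwa [Real.dist_eq, Real.dist_eq] at this
  · obtain ⟨A, hA0, hA⟩ := FL_bd H hs1
    obtain ⟨B, hB0, hB⟩ := FL_bd H.deriv.deriv hs2
    refine ⟨A + B, fun x y => ?_⟩
    rw [le_div_iff₀ (by positivity)]
    have h1 := hA x y
    have h2 := hB x y
    rw [FL_deriv H.deriv, FL_deriv H, ← mul_assoc, norm_mul] at h2
    have h3 : x ^ 2 ≤ ‖(-(2 * Real.pi * I * (x + y * I)) * -(2 * Real.pi * I * (x + y * I)) : ℂ)‖ := by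
      rw [norm_mul, norm_neg, norm_mul, norm_mul, norm_mul, Complex.norm_I, mul_one,
        Complex.norm_real, Real.norm_eq_abs, abs_of_pos Real.pi_pos]
      have h4 : |x| ≤ ‖(x + y * I : ℂ)‖ := by
        have := Complex.abs_re_le_norm (x + y * I : ℂ)
        simpa using this
      have h5 : (1 : ℝ) ≤ ‖(2 : ℂ)‖ * Real.pi := by
        rw [Complex.norm_ofNat]
        have := Real.pi_gt_three
        linarith
      have h6 : |x| ≤ ‖(2 : ℂ)‖ * Real.pi * ‖(x + y * I : ℂ)‖ := by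
        calc |x| ≤ ‖(x + y * I : ℂ)‖ := h4
          _ ≤ ‖(2 : ℂ)‖ * Real.pi * ‖(x + y * I : ℂ)‖ :=
            le_mul_of_one_le_left (norm_nonneg _) h5
      calc x ^ 2 = |x| * |x| := by rw [← sq, sq_abs]
        _ ≤ _ := mul_le_mul h6 h6 (abs_nonneg _) (by positivity)
    have h7 : x ^ 2 * ‖FL h (x + y * I)‖ ≤ B * Real.exp (2 * Real.pi * κ * |y|) :=
      (mul_le_mul_of_nonneg_right h3 (norm_nonneg _)).trans h2
    linarith

/-- the even part -/
noncomputable def evp (r : ℝ → ℝ) (α : ℝ) : ℝ := (r α + r (-α)) / 2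

lemma evp_even (r : ℝ → ℝ) (α : ℝ) : evp r (-α) = evp r α := by
  unfold evp
  rw [neg_neg, add_comm]

lemma cs_neg {r : ℝ → ℝ} (H : SC r) : HasCompactSupport fun α : ℝ => r (-α) :=
  H.cs.comp_homeomorph (Homeomorph.neg ℝ)

lemma SC_neg {r : ℝ → ℝ} (H : SC r) : SC fun α : ℝ => r (-α) :=
  ⟨H.sm.comp contDiff_neg, cs_neg H⟩

lemma evp_SC {r : ℝ → ℝ} (H : SC r) : SC (evp r) := by
  refine ⟨(H.sm.add (SC_neg H).sm).div_const 2, ?_⟩
  have h1 : HasCompactSupport ((fun t : ℝ => t / 2) ∘ (r + fun α : ℝ => r (-α))) :=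
    (H.cs.add (cs_neg H)).comp_left (by simp)
  exact h1

/-- symmetrisation of an integral with an even weight -/
lemma integral_evp {r : ℝ → ℝ} (H : SC r) {w : ℝ → ℝ} (hw : Continuous w)
    (hwe : ∀ x, w (-x) = w x) : ∫ α, evp r α * w α = ∫ α, r α * w α := by
  have i1 : Integrable fun α => r α * w α :=
    (H.cont.mul hw).integrable_of_hasCompactSupport H.cs.mul_right
  have i2 : Integrable fun α => r (-α) * w α :=
    ((SC_neg H).cont.mul hw).integrable_of_hasCompactSupport (SC_neg H).cs.mul_right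
  have e1 : ∫ α, r (-α) * w α = ∫ α, r α * w α := by
    rw [← integral_neg_eq_self (fun α => r α * w α) volume]
    simp only [hwe]
  have e2 : ∀ α, evp r α * w α = (1 / 2) * (r α * w α + r (-α) * w α) := fun α => by
    unfold evp; ring
  simp_rw [e2]
  rw [integral_const_mul, integral_add i1 i2, e1]
  ring

lemma CT_evp {r : ℝ → ℝ} (H : SC r) (x : ℝ) : CT (evp r) x = CT r x := by
  unfold CT
  refine integral_evp H (by fun_prop) fun α => ?_
  rw [← Real.cos_neg]
  congr 1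
  ring

open Pool.Agent.N804 (mg dsum XX) in
open Pool.Agent.Y749.Rig (cc) in
lemma cc_evp {r : ℝ → ℝ} (H : SC r) (h1 : ∀ α, 1 ≤ |α| → r α = 0) : cc (evp r) = mg r := by
  unfold cc mg
  congr 1
  · unfold evp
    rw [neg_zero]
    ring
  · have e1 := integral_evp H (w := fun α => min |α| 1) (by fun_prop) fun α => by rw [abs_neg]
    have e2 : ∫ α, |α| * evp r α = ∫ α, evp r α * min |α| 1 := by
      refine integral_congr_ae (ae_of_all _ fun α => ?_)
      simp only
      rcases le_or_gt |α| 1 with h | h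
      · rw [min_eq_left h, mul_comm]
      · have h2 : evp r α = 0 := by
          unfold evp
          rw [h1 α h.le, h1 (-α) (by rw [abs_neg]; exact h.le)]
          ring
        rw [h2]
        ring
    rw [e2, e1]
    refine integral_congr_ae (ae_of_all _ fun α => ?_)
    simp only
    ring

/-- the two sets of zeros -/
lemma ZZ_eq (T : ℝ) : Pool.Agent.Y749.Rig.ZZ T = H370.Zf riemannZeta 0 T := by
  ext s
  rw [Pool.Agent.Y749.Rig.mem_ZZ, Pool.Agent.N804.mem_ZT]
  constructor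
  · rintro ⟨h1, h2, h3, h4, h5⟩
    refine ⟨⟨h1, h2, h3⟩, ?_, h5⟩
    rcases h4.lt_or_eq with h | h
    · exact h
    · exfalso
      have h6 : s = ((s.re : ℝ) : ℂ) := by
        apply Complex.ext
        · simp
        · simp [← h]
      exact Pool.Agent.Y21.FW.real_ne h2 h3 (by rw [← h6]; exact h1)
  · rintro ⟨⟨h1, h2, h3⟩, h4, h5⟩
    exact ⟨h1, h2, h3, h4.le, h5⟩

theorem main : Pool.Agent.N804.PV.S_MO := by
  intro RH r H hκ
  obtain ⟨κ, hκ1, hκ0⟩ := hκ
  obtain ⟨κ', h0, h1, h2⟩ : ∃ κ' : ℝ, 0 < κ' ∧ κ' < 1 ∧ κ < κ' := by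
    refine ⟨(max κ (1 / 2) + 1) / 2, ?_, ?_, ?_⟩
    · have := le_max_right κ (1 / 2)
      linarith
    · have : max κ (1 / 2) < 1 := max_lt hκ1 (by norm_num)
      linarith
    · have h3 := le_max_left κ (1 / 2)
      have h4 : max κ (1 / 2) < 1 := max_lt hκ1 (by norm_num)
      linarith
  have hz : ∀ α, κ' ≤ |α| → evp r α = 0 := by
    intro α hα
    unfold evp
    rw [hκ0 α (h2.trans_le hα), hκ0 (-α) (by rw [abs_neg]; exact h2.trans_le hα)]
    ring
  have hA : Adm κ' (evp r) := adm (evp_SC H) (evp_even r) hz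
  have hlim := Pool.Agent.Y749.Rig.test_limRH RH hA h0 h1
  rw [cc_evp H fun α hα => hκ0 α (hκ1.trans_le hα)] at hlim
  refine hlim.congr' ?_
  filter_upwards [eventually_ge_atTop 10] with T hT
  rw [Pool.Agent.Y749.Rig.Mp_integral hT]
  have e1 : Pool.Agent.Y749.Rig.nT T = Pool.Agent.N804.XX T := rfl
  rw [e1]
  congr 1
  unfold Pool.Agent.Y749.Rig.RR Pool.Agent.N804.dsum Pool.Agent.Y749.Rig.mm
  rw [ZZ_eq]
  refine Finset.sum_congr rfl fun s _ => Finset.sum_congr rfl fun s' _ => ?_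
  have e2 : fl (evp r) ((s.im - s'.im) * Real.log T / (2 * Real.pi)) =
      Pool.Agent.N804.PV.sc r T (s.im - s'.im) := CT_evp H _
  rw [e2]

end Pool.Agent.N999.PVMO
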