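import Mathlib
import Pool.Agent.N964.GX.Stm2

/-! # GX/Q2: products of L-functions -/

set_option autoImplicit false

namespace Pool.Agent.N999.GXmul

open Complex
open Pool.Agent.W354 (LogC)
open Y767.WH (GoodH)
open Pool.Agent.N964.GX

/-- the average of the logarithmic conductors -/
noncomputable def lcc (k1 k2 : ℕ) (lc1 lc2 : ℝ → ℝ) (t : ℝ) : ℝ :=
  (k1 * lc1 t + k2 * lc2 t) / (k1 + k2)

noncomputable def AA (k1 k2 : ℕ) (A1 A2 : ℝ) : ℝ := (A1 + A2 + A1 * A2) * (k1 + k2)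

lemma logC {k1 k2 : ℕ} (h1 : 1 ≤ k1) (h2 : 1 ≤ k2) {lc1 lc2 : ℝ → ℝ} (H1 : LogC lc1)
    (H2 : LogC lc2) : LogC (lcc k1 k2 lc1 lc2) := by
  have e1 : (1 : ℝ) ≤ k1 := by exact_mod_cast h1
  have e2 : (1 : ℝ) ≤ k2 := by exact_mod_cast h2
  have e3 : (0 : ℝ) < k1 + k2 := by linarith
  constructor
  · intro x y hx hy
    unfold lcc
    gcongr
    · exact H1.mono x y hx hy
    · exact H2.mono x y hx hy
  · intro x hx
    unfold lcc
    rw [le_div_iff₀ e3]
    have a1 := mul_le_mul_of_nonneg_left (H1.low x hx) (by linarith : (0 : ℝ) ≤ k1)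
    have a2 := mul_le_mul_of_nonneg_left (H2.low x hx) (by linarith : (0 : ℝ) ≤ k2)
    linarith
  · intro x y hx hy
    unfold lcc
    rw [div_add' _ _ _ e3.ne']
    refine div_le_div_of_nonneg_right ?_ e3.le
    have a1 := mul_le_mul_of_nonneg_left (H1.slow x y hx hy) (by linarith : (0 : ℝ) ≤ k1)
    have a2 := mul_le_mul_of_nonneg_left (H2.slow x y hx hy) (by linarith : (0 : ℝ) ≤ k2)
    linarith

lemma AA1 {k1 k2 : ℕ} (h1 : 1 ≤ k1) (h2 : 1 ≤ k2) {A1 A2 : ℝ} (hA1 : 1 ≤ A1) (hA2 : 1 ≤ A2) :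
    A1 + A2 + A1 * A2 ≤ AA k1 k2 A1 A2 := by
  have e1 : (1 : ℝ) ≤ k1 := by exact_mod_cast h1
  have e2 : (1 : ℝ) ≤ k2 := by exact_mod_cast h2
  unfold AA
  have : 0 ≤ A1 + A2 + A1 * A2 := by positivity
  nlinarith

lemma smb {k : ℕ} {a : ℕ → ℂ} (ha : ∀ n : ℕ, n ≤ 1 → a n = 0)
    (hr : ∀ n : ℕ, ‖a n‖ ≤ k * ArithmeticFunction.vonMangoldt n) (s : ℂ) (hs : 1 < s.re) :
    Summable fun n : ℕ => a n * (n : ℂ) ^ (-s) := by
  have h := (ArithmeticFunction.LSeriesSummable_vonMangoldt hs)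
  unfold LSeriesSummable at h
  refine Summable.of_norm_bounded (h.norm.mul_left (k : ℝ)) fun n => ?_
  rcases Nat.eq_zero_or_pos n with rfl | hn
  · rw [ha 0 (by norm_num)]
    simp
  · rw [LSeries.term_of_ne_zero hn.ne', norm_mul, norm_div, Complex.norm_natCast_cpow_of_pos hn,
      Complex.norm_natCast_cpow_of_pos hn, Complex.neg_re, Real.rpow_neg (by positivity)]
    have h3 : ‖((ArithmeticFunction.vonMangoldt n : ℝ) : ℂ)‖ = ArithmeticFunction.vonMangoldt n := by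
      rw [Complex.norm_real, Real.norm_eq_abs,
        abs_of_nonneg ArithmeticFunction.vonMangoldt_nonneg]
    rw [h3, div_eq_mul_inv, ← mul_assoc]
    exact mul_le_mul_of_nonneg_right (hr n) (by positivity)

lemma dmul {F1 F2 : ℂ → ℂ} {s : ℂ} (d1 : AnalyticAt ℂ F1 s) (d2 : AnalyticAt ℂ F2 s)
    (h1 : F1 s ≠ 0) (h2 : F2 s ≠ 0) :
    deriv (fun s => F1 s * F2 s) s / (F1 s * F2 s) = deriv F1 s / F1 s + deriv F2 s / F2 s := by
  rw [deriv_fun_mul d1.differentiableAt d2.differentiableAt]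
  field_simp

lemma refl_ne {d A : ℝ} {lc : ℝ → ℝ} {F : ℂ → ℂ} {a : ℕ → ℂ} (h : GoodH d A lc F a) (s : ℂ)
    (h2 : s.re ≤ 1 / 2) (h3 : 1 ≤ s.im) (hF : F s ≠ 0) : F (1 - (starRingEnd ℂ) s) ≠ 0 := by
  have him : (1 - (starRingEnd ℂ) s).im = s.im := by simp
  have hre : (1 - (starRingEnd ℂ) s).re = 1 - s.re := by simp
  rcases le_or_gt s.re 0 with h0 | h0
  · exact h.nzr _ (by rw [hre]; linarith) (by rw [him]; exact h3)
  · have e := h.symm s h0 (by linarith) h3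
    rw [(h.an s (by linarith)).analyticOrderAt_eq_zero.2 hF] at e
    exact (h.an _ (by rw [him]; linarith)).analyticOrderAt_eq_zero.1 e

theorem good {k1 k2 : ℕ} (h1 : 1 ≤ k1) (h2 : 1 ≤ k2) {A1 A2 : ℝ} (hA1 : 1 ≤ A1) (hA2 : 1 ≤ A2)
    {lc1 lc2 : ℝ → ℝ} (H1 : LogC lc1) (H2 : LogC lc2) {F1 F2 : ℂ → ℂ} {a1 a2 : ℕ → ℂ}
    (g1 : GoodH k1 A1 lc1 F1 a1) (g2 : GoodH k2 A2 lc2 F2 a2)
    (r1 : ∀ n : ℕ, ‖a1 n‖ ≤ k1 * ArithmeticFunction.vonMangoldt n)
    (r2 : ∀ n : ℕ, ‖a2 n‖ ≤ k2 * ArithmeticFunction.vonMangoldt n) :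
    GoodH ((k1 + k2 : ℕ) : ℝ) (AA k1 k2 A1 A2) (lcc k1 k2 lc1 lc2) (fun s => F1 s * F2 s)
      (fun n => a1 n + a2 n) := by
  have e1 : (1 : ℝ) ≤ k1 := by exact_mod_cast h1
  have e2 : (1 : ℝ) ≤ k2 := by exact_mod_cast h2
  have e3 : (0 : ℝ) < k1 + k2 := by linarith
  have hAA := AA1 h1 h2 hA1 hA2
  have hA12 : 0 < A1 * A2 := by positivity
  have nn : ∀ {lc : ℝ → ℝ}, LogC lc → ∀ t : ℝ, 1 ≤ t → 0 ≤ lc t := fun H t ht =>
    (Real.log_nonneg ht).trans (H.low t ht)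
  constructor
  · intro s hs
    exact (g1.an s hs).fun_mul (g2.an s hs)
  · intro s hs1 hs2 hs3
    have b1 := g1.growth s hs1 hs2 hs3
    have b2 := g2.growth s hs1 hs2 hs3
    have c1 := nn H1 s.im hs3
    have c2 := nn H2 s.im hs3
    rw [norm_mul]
    refine (mul_le_mul b1 b2 (norm_nonneg _) (by positivity)).trans ?_
    have e : A1 * Real.exp (A1 * lc1 s.im) * (A2 * Real.exp (A2 * lc2 s.im))
        = (A1 * A2) * Real.exp (A1 * lc1 s.im + A2 * lc2 s.im) := by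
      rw [Real.exp_add]
      ring
    rw [e]
    refine mul_le_mul (by linarith) (Real.exp_le_exp.2 ?_) (Real.exp_pos _).le (by linarith)
    have e4 : AA k1 k2 A1 A2 * lcc k1 k2 lc1 lc2 s.im
        = (A1 + A2 + A1 * A2) * (k1 * lc1 s.im + k2 * lc2 s.im) := by
      unfold AA lcc
      field_simp
    rw [e4]
    have c3 : lc1 s.im ≤ k1 * lc1 s.im := by nlinarith
    have c4 : lc2 s.im ≤ k2 * lc2 s.im := by nlinarith
    have c5 : (A1 + A2 + A1 * A2) * (lc1 s.im + lc2 s.im)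
        ≤ (A1 + A2 + A1 * A2) * (k1 * lc1 s.im + k2 * lc2 s.im) :=
      mul_le_mul_of_nonneg_left (by linarith) (by positivity)
    have c6 : 0 ≤ A1 * lc2 s.im := by positivity
    have c7 : 0 ≤ A2 * lc1 s.im := by positivity
    have c8 : 0 ≤ A1 * A2 * (lc1 s.im + lc2 s.im) := by positivity
    nlinarith
  · intro t ht
    have b1 := g1.lower t ht
    have b2 := g2.lower t ht
    rw [norm_mul]
    refine le_trans ?_ (mul_le_mul b1 b2 (by positivity) (norm_nonneg _))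
    rw [← mul_inv]
    exact inv_anti₀ hA12 (by linarith)
  · intro s hs1 hs2
    exact mul_ne_zero (g1.nzr s hs1 hs2) (g2.nzr s hs1 hs2)
  · intro s hs1 hs2
    exact mul_ne_zero (g1.nzl s hs1 hs2) (g2.nzl s hs1 hs2)
  · intro s hs1 hs2 hs3
    have him : (1 - (starRingEnd ℂ) s).im = s.im := by simp
    have m1 := analyticOrderAt_mul (g1.an s (by linarith)) (g2.an s (by linarith))
    have m2 := analyticOrderAt_mul (g1.an (1 - (starRingEnd ℂ) s) (by rw [him]; linarith))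
      (g2.an (1 - (starRingEnd ℂ) s) (by rw [him]; linarith))
    have m3 : (fun s => F1 s * F2 s) = F1 * F2 := rfl
    rw [m3, m1, m2, g1.symm s hs1 hs2 hs3, g2.symm s hs1 hs2 hs3]
  · intro n hn
    show a1 n + a2 n = 0
    rw [g1.ha1 n hn, g2.ha1 n hn, add_zero]
  · refine Summable.of_nonneg_of_le (fun n => by positivity) (fun n => ?_) (g1.has.add g2.has)
    rw [← add_mul]
    exact mul_le_mul_of_nonneg_right (norm_add_le _ _) (by positivity)
  · have hs : Summable (fun n : ℕ => ‖a1 n + a2 n‖ * (n : ℝ) ^ (-(7 / 4) : ℝ)) := by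
      refine Summable.of_nonneg_of_le (fun n => by positivity) (fun n => ?_) (g1.has.add g2.has)
      rw [← add_mul]
      exact mul_le_mul_of_nonneg_right (norm_add_le _ _) (by positivity)
    have h := hs.tsum_le_tsum (fun n => ?_) (g1.has.add g2.has)
    · rw [g1.has.tsum_add g2.has] at h
      have := g1.ha
      have := g2.ha
      exact h.trans (by linarith)
    · rw [← add_mul]
      exact mul_le_mul_of_nonneg_right (norm_add_le _ _) (by positivity)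
  · intro s hs1 hs2
    have hi : 0 < s.im := by linarith
    rw [dmul (g1.an s hi) (g2.an s hi) (g1.nzr s hs1.le hs2) (g2.nzr s hs1.le hs2),
      g1.ld s hs1 hs2, g2.ld s hs1 hs2, ← neg_add,
      ← (smb g1.ha1 r1 s hs1).tsum_add (smb g2.ha1 r2 s hs1)]
    congr 1
    refine tsum_congr fun n => ?_
    ring
  · intro s hs1 hs2 hs3 hF
    have hi : 0 < s.im := by linarith
    have him : (1 - (starRingEnd ℂ) s).im = s.im := by simp
    have hi' : 0 < (1 - (starRingEnd ℂ) s).im := by rw [him]; exact hi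
    have f1 : F1 s ≠ 0 := left_ne_zero_of_mul hF
    have f2 : F2 s ≠ 0 := right_ne_zero_of_mul hF
    have f3 := refl_ne g1 s hs2 hs3 f1
    have f4 := refl_ne g2 s hs2 hs3 f2
    rw [dmul (g1.an s hi) (g2.an s hi) f1 f2, dmul (g1.an _ hi') (g2.an _ hi') f3 f4]
    have b1 := g1.left s hs1 hs2 hs3 f1
    have b2 := g2.left s hs1 hs2 hs3 f2
    have e4 : ((k1 + k2 : ℕ) : ℝ) * lcc k1 k2 lc1 lc2 s.im = k1 * lc1 s.im + k2 * lc2 s.im := by
      unfold lcc
      push_cast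
      field_simp
    rw [e4, map_add, Complex.ofReal_add]
    refine le_trans (le_of_eq ?_) ((norm_add_le _ _).trans ((add_le_add b1 b2).trans ?_))
    · congr 1
      ring
    · linarith

theorem mul : S_mul := by
  intro k1 r1 A1 lc1 F1 F1' E1 a1 a1' b1 k2 r2 A2 lc2 F2 F2' E2 a2 a2' b2 l1 l2 hr
  refine ⟨AA k1 k2 A1 A2, lcc k1 k2 lc1 lc2, LSeries.convolution b1 b2, ?_⟩
  have hAA := AA1 l1.hk l2.hk l1.hA l2.hA
  have hp : 0 < A1 * A2 := mul_pos (by linarith [l1.hA]) (by linarith [l2.hA])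
  have ram : ∀ {a1 a2 : ℕ → ℂ}, (∀ n : ℕ, ‖a1 n‖ ≤ k1 * ArithmeticFunction.vonMangoldt n) →
      (∀ n : ℕ, ‖a2 n‖ ≤ k2 * ArithmeticFunction.vonMangoldt n) →
      ∀ n : ℕ, ‖a1 n + a2 n‖ ≤ ((k1 + k2 : ℕ) : ℝ) * ArithmeticFunction.vonMangoldt n := by
    intro a1 a2 h1 h2 n
    push_cast
    rw [add_mul]
    exact (norm_add_le _ _).trans (add_le_add (h1 n) (h2 n))
  constructor
  · have := l1.hk
    omega
  · linarith [l1.hA, l2.hA]
  · exact logC l1.hk l2.hk l1.hlc l2.hlc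
  · exact good l1.hk l2.hk l1.hA l2.hA l1.hlc l2.hlc l1.good l2.good l1.ram l2.ram
  · exact good l1.hk l2.hk l1.hA l2.hA l1.hlc l2.hlc l1.good' l2.good' l1.ram' l2.ram'
  · exact ram l1.ram l2.ram
  · exact ram l1.ram' l2.ram'
  · intro s
    rw [l1.hconj, l2.hconj, map_mul]
  · exact l1.ent.fun_mul l2.ent
  · intro s hs
    rw [l1.hE s hs, l2.hE s hs]
    ring
  · rcases hr with ⟨h1, h2⟩ | ⟨h1, h2⟩
    · left
      omega
    · right
      exact mul_ne_zero h1 h2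
  · intro s hs
    exact (l1.sb s hs).convolution (l2.sb s hs)
  · intro s hs
    rw [LSeries_convolution' (l1.sb s hs) (l2.sb s hs)]
    have := l1.hb s hs
    have := l2.hb s hs
    calc F1 s * F2 s * (LSeries b1 s * LSeries b2 s)
        = (F1 s * LSeries b1 s) * (F2 s * LSeries b2 s) := by ring
      _ = 1 := by rw [l1.hb s hs, l2.hb s hs, mul_one]

end Pool.Agent.N999.GXmul
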