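import Pool.Agent.N979.CAP.Stm

/-! # CAP/BND: the statistic stays in the disc -/

set_option autoImplicit false

namespace Pool.Agent.N999.CAPBND

open Real MeasureTheory Set Finset
open Pool.Agent.N979.CAP

lemma riem (F : ℝ → ℝ) (K : ℝ) (hK : 0 ≤ K) (hF : ∀ x y, |F x - F y| ≤ K * |x - y|)
    (N : ℕ) (hN : 0 < N) :
    |π / N * ∑ j ∈ range N, F (th N j) - ∫ θ in (0 : ℝ)..π, F θ| ≤ K * π ^ 2 / N := by
  have hN' : (0 : ℝ) < N := by exact_mod_cast hN
  have hc : Continuous F := by
    have : LipschitzWith (Real.toNNReal K) F := by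
      refine LipschitzWith.of_dist_le_mul fun x y => ?_
      rw [Real.dist_eq, Real.dist_eq, Real.coe_toNNReal K hK]
      exact hF x y
    exact this.continuous
  have hsum := intervalIntegral.sum_integral_adjacent_intervals (f := F) (a := th N) (n := N)
    (μ := volume) (fun k _ => hc.intervalIntegrable _ _)
  have h0 : th N 0 = 0 := by simp [th]
  have h1 : th N N = π := by
    unfold th
    field_simp
  rw [h0, h1] at hsum
  have hd : ∀ j : ℕ, th N (j + 1) - th N j = π / N := by
    intro j
    unfold th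
    push_cast
    ring
  rw [← hsum, Finset.mul_sum, ← Finset.sum_sub_distrib]
  have hj : ∀ j ∈ range N, |π / N * F (th N j) - ∫ x in th N j..th N (j + 1), F x|
      ≤ K * (π / N) * (π / N) := by
    intro j _
    have e : π / N * F (th N j) - ∫ x in th N j..th N (j + 1), F x
        = ∫ x in th N j..th N (j + 1), (F (th N j) - F x) := by
      rw [intervalIntegral.integral_sub (by simp) (hc.intervalIntegrable _ _),
        intervalIntegral.integral_const, hd, smul_eq_mul]
    rw [e, ← Real.norm_eq_abs]
    have hb := intervalIntegral.norm_integral_le_of_norm_le_const (a := th N j)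
      (b := th N (j + 1)) (f := fun x => F (th N j) - F x) (C := K * (π / N)) (by
        intro x hx
        rw [Real.norm_eq_abs]
        refine (hF _ _).trans (mul_le_mul_of_nonneg_left ?_ hK)
        have hle : th N j ≤ th N (j + 1) := by
          have := hd j
          have : 0 < π / N := by positivity
          linarith [hd j]
        rw [uIoc_of_le hle] at hx
        have := hd j
        rw [abs_le]
        constructor <;> linarith [hx.1, hx.2])
    rw [hd, abs_of_pos (by positivity : (0 : ℝ) < π / N)] at hb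
    exact hb
  refine (Finset.abs_sum_le_sum_abs _ _).trans ((Finset.sum_le_sum hj).trans ?_)
  rw [Finset.sum_const, Finset.card_range, nsmul_eq_mul]
  have : (N : ℝ) * (K * (π / N) * (π / N)) = K * π ^ 2 / N := by
    field_simp
  exact this.le

theorem main (hR : S_RIE) (hG : S_GIN) (hZ : S_ZZZ) (hr : S_RRR) : S_BND := by
  intro s₀ hs0 hs1
  have hs2 : s₀ < 1 := by nlinarith
  obtain ⟨N₁, hN₁⟩ := hR 0 le_rfl (fun ψ _ => cos ψ * arcsin (471 / 500 * cos ψ))
    (by
      have : Continuous (fun p : ℝ × ℝ => cos p.1 * arcsin (471 / 500 * cos p.1)) := by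
        fun_prop
      exact this.continuousOn)
    (fun ψ _ => by
      simp only [Real.cos_add_pi]
      rw [mul_neg, Real.arcsin_neg]
      ring) 0.0005 (by norm_num)
  refine ⟨max N₁ 80000, fun N hN g hg1 hg2 hg3 φ => ?_⟩
  have hNa : N₁ ≤ N := (le_max_left _ _).trans hN
  have hNb : 80000 ≤ N := (le_max_right _ _).trans hN
  have hNc : (80000 : ℝ) ≤ N := by exact_mod_cast hNb
  have hR1 := hN₁ N hNa 0 (by simp) φ
  have hL := riem (fun θ => cos (θ - φ) * g θ) 4 (by norm_num) (by
    intro x y
    have e : cos (x - φ) * g x - cos (y - φ) * g y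
        = (cos (x - φ) - cos (y - φ)) * g x + cos (y - φ) * (g x - g y) := by ring
    have h1 : |cos (x - φ) - cos (y - φ)| ≤ |x - y| := by
      have := Real.abs_cos_sub_cos_le (x - φ) (y - φ)
      simpa using this
    have h2 : |g x| ≤ 2 := by
      have h3 := hg2 x
      have h4 := Real.arcsin_le_pi_div_two s₀
      have h5 := Real.pi_lt_four
      linarith
    have h3 : |cos (y - φ)| ≤ 1 := Real.abs_cos_le_one _
    have h4 := hg3 x y
    rw [e]
    refine (abs_add_le _ _).trans ?_
    rw [abs_mul, abs_mul]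
    have h5 := abs_nonneg (x - y)
    have h6 := abs_nonneg (g x)
    have h7 : |cos (x - φ) - cos (y - φ)| * |g x| ≤ |x - y| * 2 :=
      mul_le_mul h1 h2 h6 h5
    have h8 : |cos (y - φ)| * |g x - g y| ≤ 1 * (s₀ * |x - y|) :=
      mul_le_mul h3 h4 (abs_nonneg _) (by norm_num)
    nlinarith) N (by omega)
  have hI := (hG s₀ hs0 hs2 g hg1 hg2 hg3 φ).trans (hr s₀ hs0 hs1)
  have hpi : π ^ 2 ≤ 10 := by
    have := Real.pi_lt_d2
    nlinarith [Real.pi_pos]
  have hq : 4 * π ^ 2 / (N : ℝ) ≤ 0.0005 := by
    rw [div_le_iff₀ (by linarith)]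
    nlinarith
  unfold S_ZZZ at hZ
  have a1 := (abs_le.1 hL).2
  have a2 := (abs_le.1 hR1).1
  have e2 : ∀ j : ℕ, th N j = π * j / N := fun j => rfl
  simp only [e2] at a1 ⊢
  norm_num at a1 a2 hI hq hZ ⊢
  linarith

end Pool.Agent.N999.CAPBND
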